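import Mathlib

/-!
# Averages over finite types
-/

set_option linter.all false

namespace Pool.Agent.Lib.MP_426a66_co.H68

open Finset
open scoped BigOperators

variable {V : Type} [Fintype V] [Nonempty V]

/-- product of averages = average over functions of the products -/
lemma prod_expect' {I T : Type} [Fintype I] [DecidableEq I] [Fintype T] [Nonempty T]
    (F : I → T → ℝ) : ∏ i, 𝔼 t, F i t = 𝔼 g : I → T, ∏ i, F i (g i) := by
  simp only [Fintype.expect_eq_sum_div_card]
  rw [Finset.prod_div_distrib, Finset.prod_const, Finset.card_univ, Fintype.card_fun,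
    Nat.cast_pow]
  congr 1
  rw [Finset.prod_univ_sum, Fintype.piFinset_univ]

/-- averages over products -/
lemma expect_prod' {S T : Type} [Fintype S] [Fintype T] (F : S → T → ℝ) :
    𝔼 z : S × T, F z.1 z.2 = 𝔼 s, 𝔼 t, F s t := by
  rw [← Finset.univ_product_univ, Finset.expect_product]

lemma expect_comm' {S T : Type} [Fintype S] [Fintype T] (F : S → T → ℝ) :
    𝔼 s, 𝔼 t, F s t = 𝔼 t, 𝔼 s, F s t := Finset.expect_comm _ _ _

/-- integrating out one coordinate -/
lemma expect_coord {P : Type} [Fintype P] [DecidableEq P] (a : P) (g : V → ℝ)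
    (F : (P → V) → ℝ) (hF : ∀ x v, F (Function.update x a v) = F x) :
    𝔼 x : P → V, g (x a) * F x = (𝔼 v, g v) * 𝔼 x, F x := by
  have h1 : 𝔼 x : P → V, g (x a) * F x = 𝔼 x : P → V, 𝔼 v : V, g (x a) * F x := by
    simp
  have h2 : 𝔼 x : P → V, 𝔼 v : V, g (x a) * F x = 𝔼 x : P → V, 𝔼 v : V, g v * F x := by
    rw [← expect_prod' (fun (x : P → V) (_ : V) => g (x a) * F x),
      ← expect_prod' (fun (x : P → V) (v : V) => g v * F x)]
    let e : (P → V) × V ≃ (P → V) × V :=
      { toFun := fun z => (Function.update z.1 a z.2, z.1 a)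
        invFun := fun z => (Function.update z.1 a z.2, z.1 a)
        left_inv := by
          rintro ⟨x, v⟩
          simp
        right_inv := by
          rintro ⟨x, v⟩
          simp }
    refine Fintype.expect_equiv e _ _ ?_
    rintro ⟨x, v⟩
    show g (x a) * F x = g (x a) * F (Function.update x a v)
    rw [hF]
  rw [h1, h2, expect_comm', Finset.expect_mul]
  refine Finset.expect_congr rfl fun v _ => ?_
  rw [Finset.mul_expect]

/-- `∏_{a ∈ R} W (x a) y` -/
def pw (W : V → V → ℝ) {P : Type} (R : Finset P) (x : P → V) (y : V) : ℝ := ∏ a ∈ R, W (x a) y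

/-- the degree of `y` -/
noncomputable def dg (W : V → V → ℝ) (y : V) : ℝ := 𝔼 x, W x y

/-- integrating out the coordinates outside of `R` -/
lemma expect_pw {P : Type} [Fintype P] [DecidableEq P] (W : V → V → ℝ) (R : Finset P)
    (φ : (P → V) → ℝ) (hφ : ∀ x x', (∀ a ∈ R, x a = x' a) → φ x = φ x') (y : V) :
    𝔼 x : P → V, pw W univ x y * φ x =
      dg W y ^ (Fintype.card P - R.card) * 𝔼 x : P → V, pw W R x y * φ x := by
  have key : ∀ D : Finset P, Disjoint D R → 𝔼 x : P → V, pw W (D ∪ R) x y * φ x =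
      dg W y ^ D.card * 𝔼 x : P → V, pw W R x y * φ x := by
    intro D
    induction D using Finset.induction_on with
    | empty => intro _; simp
    | insert a D ha ih =>
      intro hD
      rw [Finset.disjoint_insert_left] at hD
      have h1 : ∀ x : P → V, pw W (insert a D ∪ R) x y * φ x =
          W (x a) y * (pw W (D ∪ R) x y * φ x) := by
        intro x
        have : insert a D ∪ R = insert a (D ∪ R) := Finset.insert_union _ _ _
        rw [pw, this, Finset.prod_insert (by simp [ha, hD.1]), mul_assoc]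
        rfl
      simp_rw [h1]
      rw [expect_coord a (fun v => W v y) (fun x => pw W (D ∪ R) x y * φ x), ih hD.2,
        Finset.card_insert_of_notMem ha, pow_succ]
      · show dg W y * _ = _
        ring
      · intro x v
        have h2 : φ (Function.update x a v) = φ x := by
          apply hφ
          intro b hb
          rw [Function.update_of_ne]
          rintro rfl
          exact hD.1 hb
        have h3 : pw W (D ∪ R) (Function.update x a v) y = pw W (D ∪ R) x y := by
          refine Finset.prod_congr rfl fun b hb => ?_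
          rw [Function.update_of_ne]
          rintro rfl
          rcases Finset.mem_union.1 hb with hb | hb
          · exact ha hb
          · exact hD.1 hb
        rw [h2, h3]
  have h4 := key Rᶜ disjoint_compl_left
  rw [Finset.card_compl] at h4
  have h5 : Rᶜ ∪ R = univ := by
    ext a
    simp [em']
  rw [h5] at h4
  exact h4

lemma pw_nonneg {W : V → V → ℝ} (hW : ∀ x y, 0 ≤ W x y) {P : Type} (R : Finset P) (x : P → V)
    (y : V) : 0 ≤ pw W R x y := Finset.prod_nonneg fun _ _ => hW _ _

lemma dg_nonneg {W : V → V → ℝ} (hW : ∀ x y, 0 ≤ W x y) (y : V) : 0 ≤ dg W y :=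
  Finset.expect_nonneg fun _ _ => hW _ _

lemma eq_zero_of_dg {W : V → V → ℝ} (hW : ∀ x y, 0 ≤ W x y) {y : V} (h : dg W y = 0) (x : V) :
    W x y = 0 := by
  have h1 := (Fintype.expect_eq_zero_iff_of_nonneg (f := fun x => W x y)
    (fun x => hW x y)).1 h
  exact congrFun h1 x

lemma pw_eq_zero_of_dg {W : V → V → ℝ} (hW : ∀ x y, 0 ≤ W x y) {y : V} (h : dg W y = 0)
    {P : Type} {R : Finset P} (hR : R.Nonempty) (x : P → V) : pw W R x y = 0 := by
  obtain ⟨a, ha⟩ := hR
  exact Finset.prod_eq_zero ha (eq_zero_of_dg hW h _)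

lemma pw_congr {W : V → V → ℝ} {P : Type} {R : Finset P} {x x' : P → V}
    (h : ∀ a ∈ R, x a = x' a) (y : V) : pw W R x y = pw W R x' y :=
  Finset.prod_congr rfl fun a ha => by rw [h a ha]

/-- Jensen for the logarithm in the form that we use -/
lemma log_expect {Ω : Type} [Fintype Ω] (p Y : Ω → ℝ) (hp : ∀ ω, 0 ≤ p ω)
    (hY : ∀ ω, 0 < p ω → 0 < Y ω) (h1 : 𝔼 ω, p ω * Y ω ≤ 𝔼 ω, p ω) :
    𝔼 ω, p ω * Real.log (Y ω) ≤ 0 := by
  have h2 : 𝔼 ω, p ω * Real.log (Y ω) ≤ 𝔼 ω, (p ω * Y ω - p ω) := by
    refine Finset.expect_le_expect fun ω _ => ?_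
    rcases (hp ω).eq_or_lt with h | h
    · rw [← h]; simp
    · have := Real.log_le_sub_one_of_pos (hY ω h)
      nlinarith
  rw [Finset.expect_sub_distrib] at h2
  linarith

end Pool.Agent.Lib.MP_426a66_co.H68
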