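import Pool.Agent.Lib.MP_426a66_co.H68.Star

/-!
# The fold inequality
-/

set_option linter.all false

namespace Pool.Agent.Lib.MP_426a66_co.H68

open Finset
open scoped BigOperators

variable {V : Type} [Fintype V] [Nonempty V]
variable {P J : Type} [Fintype P] [DecidableEq P] [Fintype J] [DecidableEq J]
variable {I B₁ B₂ : Type} [Fintype I] [DecidableEq I] [AddCommGroup I] [Fintype B₁]
  [DecidableEq B₁] [Fintype B₂] [DecidableEq B₂]

/-- power means -/
lemma power_mean {Y : Type} [Fintype Y] (κ ψ : Y → ℝ) (hκ : ∀ y, 0 ≤ κ y) (hψ : ∀ y, 0 ≤ ψ y)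
    (q : ℕ) (hq : 0 < q) :
    (𝔼 y, κ y * ψ y) ^ q ≤ (𝔼 y, κ y) ^ (q - 1) * 𝔼 y, κ y * ψ y ^ q := by
  rcases isEmpty_or_nonempty Y with hY | hY
  · simp [hq.ne']
  rcases (Finset.expect_nonneg (s := (univ : Finset Y)) fun y _ => hκ y).eq_or_lt with h | h
  · have h1 : (fun y => κ y) = 0 := (Fintype.expect_eq_zero_iff_of_nonneg (f := fun y => κ y)
      (fun y => hκ y)).1 h.symm
    have h2 : ∀ y, κ y = 0 := fun y => congrFun h1 y
    simp [h2, hq.ne']
  · have hS : 0 < ∑ y, κ y := by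
      rw [Fintype.expect_eq_sum_div_card] at h
      have hc : (0 : ℝ) < Fintype.card Y := by exact_mod_cast Fintype.card_pos
      exact (div_pos_iff_of_pos_right hc).1 h
    have hN : (0 : ℝ) < Fintype.card Y := by exact_mod_cast Fintype.card_pos
    have h3 := Real.pow_arith_mean_le_arith_mean_pow univ (fun y => κ y / ∑ y, κ y) ψ
      (fun y _ => div_nonneg (hκ y) hS.le) (by rw [← Finset.sum_div, div_self hS.ne'])
      (fun y _ => hψ y) q
    have e1 : ∑ y, κ y / (∑ y, κ y) * ψ y = (𝔼 y, κ y * ψ y) / 𝔼 y, κ y := by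
      rw [Fintype.expect_eq_sum_div_card, Fintype.expect_eq_sum_div_card, div_div_div_cancel_right₀
        hN.ne', Finset.sum_div]
      refine Finset.sum_congr rfl fun y _ => ?_
      ring
    have e2 : ∑ y, κ y / (∑ y, κ y) * ψ y ^ q = (𝔼 y, κ y * ψ y ^ q) / 𝔼 y, κ y := by
      rw [Fintype.expect_eq_sum_div_card, Fintype.expect_eq_sum_div_card, div_div_div_cancel_right₀
        hN.ne', Finset.sum_div]
      refine Finset.sum_congr rfl fun y _ => ?_
      ring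
    rw [e1, e2, div_pow, div_le_div_iff₀ (by positivity) h] at h3
    have e3 : (𝔼 y, κ y) ^ q = (𝔼 y, κ y) ^ (q - 1) * 𝔼 y, κ y := by
      rw [← pow_succ, Nat.sub_add_cancel hq]
    rw [e3, ← mul_assoc] at h3
    have h4 := le_of_mul_le_mul_right h3 h
    linarith

/-- the blocks: data of a folded bipartite graph -/
structure Dat (P J I B₁ B₂ : Type) where
  i₁ : B₁ → I
  R₁ : B₁ → Finset P
  U₁ : B₁ → Finset J
  R₂ : B₂ → Finset P
  U₂ : B₂ → Finset J

/-- the homomorphism density of the graph with data `d` -/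
noncomputable def hd (W : V → V → ℝ) (d : Dat P J I B₁ B₂) : ℝ :=
  𝔼 x : P → V, 𝔼 u : I → J → V, (∏ b, sb W 0 (d.R₁ b) (d.U₁ b) x (u (d.i₁ b))) *
    ∏ b, 𝔼 y, pw W (d.R₂ b) x y * ∏ i, pw W (d.U₂ b) (u i) y

/-- geometric mean of the left factors -/
noncomputable def ff (W : V → V → ℝ) (d : Dat P J I B₁ B₂) (x : P → V) (v : J → V) : ℝ :=
  ∏ b, sb W 0 (d.R₁ b) (d.U₁ b) x v ^ ((Fintype.card I : ℝ)⁻¹)

/-- `Φ(x,y)` -/
noncomputable def Ph (W : V → V → ℝ) (d : Dat P J I B₁ B₂) (x : P → V) (y : B₂ → V) : ℝ :=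
  𝔼 v : J → V, ff W d x v * ∏ b, pw W (d.U₂ b) v (y b)

/-- the exponents `h_b` -/
noncomputable def hh (d : Dat P J I B₁ B₂) (b : B₂) : ℝ :=
  (1 - ((d.R₂ b).card : ℝ)) * ((Fintype.card I : ℝ) - 1) / (Fintype.card I : ℝ)

/-- the integrand `g(x,v)` -/
noncomputable def gg (W : V → V → ℝ) (d : Dat P J I B₁ B₂) (x : P → V) (v : J → V) : ℝ :=
  ff W d x v * ∏ b, sb W (hh d b) (d.R₂ b) (d.U₂ b) x v

/-- `G(x)` -/
noncomputable def GG (W : V → V → ℝ) (d : Dat P J I B₁ B₂) (x : P → V) : ℝ :=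
  𝔼 v : J → V, gg W d x v

/-- an arbitrary point -/
noncomputable def pt₀ (J V : Type) [Nonempty V] : J → V := fun _ => Classical.arbitrary V

/-- `Z(x)` -/
noncomputable def ZZ (W : V → V → ℝ) (d : Dat P J I B₁ B₂) (x : P → V) : ℝ :=
  ∏ b, sb W (ex (d.R₂ b) (∅ : Finset J)) (d.R₂ b) ∅ x (pt₀ J V)

section

variable {W : V → V → ℝ} (d : Dat P J I B₁ B₂)

lemma ff_nonneg (hW : ∀ x y, 0 ≤ W x y) (x : P → V) (v : J → V) : 0 ≤ ff W d x v :=
  Finset.prod_nonneg fun b _ => Real.rpow_nonneg (sb_nonneg hW _ _ _ _ _) _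

lemma gg_nonneg (hW : ∀ x y, 0 ≤ W x y) (x : P → V) (v : J → V) : 0 ≤ gg W d x v :=
  mul_nonneg (ff_nonneg d hW x v) (Finset.prod_nonneg fun b _ => sb_nonneg hW _ _ _ _ _)

lemma GG_nonneg (hW : ∀ x y, 0 ≤ W x y) (x : P → V) : 0 ≤ GG W d x :=
  Finset.expect_nonneg fun _ _ => gg_nonneg d hW _ _

lemma ZZ_nonneg (hW : ∀ x y, 0 ≤ W x y) (x : P → V) : 0 ≤ ZZ W d x :=
  Finset.prod_nonneg fun _ _ => sb_nonneg hW _ _ _ _ _

lemma Ph_nonneg (hW : ∀ x y, 0 ≤ W x y) (x : P → V) (y : B₂ → V) : 0 ≤ Ph W d x y :=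
  Finset.expect_nonneg fun v _ => mul_nonneg (ff_nonneg d hW x v)
    (Finset.prod_nonneg fun b _ => pw_nonneg hW _ _ _)

/-- step 0: symmetrization -/
lemma step0 (hW : ∀ x y, 0 ≤ W x y) :
    𝔼 x : P → V, 𝔼 u : I → J → V, (∏ i, ff W d x (u i)) *
      ∏ b, 𝔼 y, pw W (d.R₂ b) x y * ∏ i, pw W (d.U₂ b) (u i) y ≤ hd W d := by
  have h1 : ∀ (c : I) (x : P → V), 𝔼 u : I → J → V,
      (∏ b, sb W 0 (d.R₁ b) (d.U₁ b) x (u (d.i₁ b + c))) *
      ∏ b, 𝔼 y, pw W (d.R₂ b) x y * ∏ i, pw W (d.U₂ b) (u i) y =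
      𝔼 u : I → J → V, (∏ b, sb W 0 (d.R₁ b) (d.U₁ b) x (u (d.i₁ b))) *
      ∏ b, 𝔼 y, pw W (d.R₂ b) x y * ∏ i, pw W (d.U₂ b) (u i) y := by
    intro c x
    refine Fintype.expect_equiv ((Equiv.addRight c).symm.arrowCongr (Equiv.refl _)) _ _ ?_
    intro u
    have e1 : ∀ i, ((Equiv.addRight c).symm.arrowCongr (Equiv.refl (J → V))) u i = u (i + c) := by
      intro i
      simp [Equiv.arrowCongr]
    simp only [e1]
    congr 1
    refine Finset.prod_congr rfl fun b _ => ?_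
    refine Finset.expect_congr rfl fun y _ => ?_
    congr 1
    exact (Equiv.prod_comp (Equiv.addRight c) (fun i => pw W (d.U₂ b) (u i) y)).symm
  have hI : (0 : ℝ) < Fintype.card I := by exact_mod_cast Fintype.card_pos
  have h2 : hd W d = 𝔼 x : P → V, 𝔼 u : I → J → V,
      (∑ c : I, (Fintype.card I : ℝ)⁻¹ * ∏ b, sb W 0 (d.R₁ b) (d.U₁ b) x (u (d.i₁ b + c))) *
      ∏ b, 𝔼 y, pw W (d.R₂ b) x y * ∏ i, pw W (d.U₂ b) (u i) y := by
    unfold hd
    refine Finset.expect_congr rfl fun x _ => ?_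
    simp only [Finset.sum_mul]
    rw [Finset.expect_sum_comm]
    have h3 : ∀ c : I, 𝔼 u : I → J → V, (Fintype.card I : ℝ)⁻¹ *
        (∏ b, sb W 0 (d.R₁ b) (d.U₁ b) x (u (d.i₁ b + c))) *
        ∏ b, 𝔼 y, pw W (d.R₂ b) x y * ∏ i, pw W (d.U₂ b) (u i) y =
        (Fintype.card I : ℝ)⁻¹ * 𝔼 u : I → J → V,
          (∏ b, sb W 0 (d.R₁ b) (d.U₁ b) x (u (d.i₁ b))) *
        ∏ b, 𝔼 y, pw W (d.R₂ b) x y * ∏ i, pw W (d.U₂ b) (u i) y := by
      intro c
      rw [← h1 c x, Finset.mul_expect]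
      refine Finset.expect_congr rfl fun u _ => ?_
      ring
    simp only [h3, Finset.sum_const, Finset.card_univ, nsmul_eq_mul]
    field_simp
  rw [h2]
  refine Finset.expect_le_expect fun x _ => Finset.expect_le_expect fun u _ => ?_
  refine mul_le_mul_of_nonneg_right ?_ (Finset.prod_nonneg fun b _ =>
    Finset.expect_nonneg fun y _ => mul_nonneg (pw_nonneg hW _ _ _)
      (Finset.prod_nonneg fun i _ => pw_nonneg hW _ _ _))
  have h4 := Real.geom_mean_le_arith_mean_weighted (univ : Finset I)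
    (fun _ => (Fintype.card I : ℝ)⁻¹)
    (fun c => ∏ b, sb W 0 (d.R₁ b) (d.U₁ b) x (u (d.i₁ b + c)))
    (fun _ _ => by positivity)
    (by simp)
    (fun c _ => Finset.prod_nonneg fun b _ => sb_nonneg hW _ _ _ _ _)
  refine le_trans (le_of_eq ?_) h4
  have h5 : ∀ c : I, (∏ b, sb W 0 (d.R₁ b) (d.U₁ b) x (u (d.i₁ b + c))) ^
      ((Fintype.card I : ℝ)⁻¹) =
      ∏ b, sb W 0 (d.R₁ b) (d.U₁ b) x (u (d.i₁ b + c)) ^ ((Fintype.card I : ℝ)⁻¹) := by
    intro c
    rw [Real.finset_prod_rpow _ _ fun b _ => sb_nonneg hW _ _ _ _ _]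
  simp only [h5, ff]
  rw [Finset.prod_comm, Finset.prod_comm (s := (univ : Finset I)) (t := (univ : Finset B₁))]
  refine Finset.prod_congr rfl fun b _ => ?_
  exact (Equiv.prod_comp (Equiv.addLeft (d.i₁ b)) (fun i =>
    sb W 0 (d.R₁ b) (d.U₁ b) x (u i) ^ ((Fintype.card I : ℝ)⁻¹))).symm

/-- step 1: expansion -/
lemma step1 (x : P → V) :
    𝔼 u : I → J → V, (∏ i, ff W d x (u i)) *
      ∏ b, 𝔼 y, pw W (d.R₂ b) x y * ∏ i, pw W (d.U₂ b) (u i) y =
    𝔼 y : B₂ → V, (∏ b, pw W (d.R₂ b) x (y b)) * Ph W d x y ^ Fintype.card I := by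
  have h1 : ∀ u : I → J → V, (∏ i, ff W d x (u i)) *
      ∏ b, 𝔼 y, pw W (d.R₂ b) x y * ∏ i, pw W (d.U₂ b) (u i) y =
      𝔼 y : B₂ → V, (∏ b, pw W (d.R₂ b) x (y b)) *
        ∏ i, (ff W d x (u i) * ∏ b, pw W (d.U₂ b) (u i) (y b)) := by
    intro u
    rw [prod_expect' (fun (b : B₂) (y : V) => pw W (d.R₂ b) x y * ∏ i, pw W (d.U₂ b) (u i) y),
      Finset.mul_expect]
    refine Finset.expect_congr rfl fun y _ => ?_
    rw [Finset.prod_mul_distrib, Finset.prod_mul_distrib, Finset.prod_comm]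
    ring
  simp only [h1]
  rw [expect_comm']
  refine Finset.expect_congr rfl fun y _ => ?_
  rw [← Finset.mul_expect]
  congr 1
  rw [← prod_expect' (fun (_ : I) (v : J → V) => ff W d x v * ∏ b, pw W (d.U₂ b) v (y b)),
    Finset.prod_const, Finset.card_univ]
  rfl

lemma pwPh_zero (hW : ∀ x y, 0 ≤ W x y) (hne : ∀ b, (d.R₂ b).Nonempty ∨ (d.U₂ b).Nonempty)
    (x : P → V) (y : B₂ → V) (b : B₂) (hb : dg W (y b) = 0) :
    (∏ b, pw W (d.R₂ b) x (y b)) * Ph W d x y = 0 := by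
  rcases hne b with h | h
  · rw [Finset.prod_eq_zero (mem_univ b) (pw_eq_zero_of_dg hW hb h x), zero_mul]
  · have : Ph W d x y = 0 := by
      refine Finset.expect_eq_zero fun v _ => ?_
      rw [Finset.prod_eq_zero (mem_univ b) (pw_eq_zero_of_dg hW hb h v), mul_zero]
    rw [this, mul_zero]

/-- step 2: power mean -/
lemma step2 (hW : ∀ x y, 0 ≤ W x y) (hne : ∀ b, (d.R₂ b).Nonempty ∨ (d.U₂ b).Nonempty)
    (x : P → V) :
    GG W d x ^ Fintype.card I ≤ ZZ W d x ^ (Fintype.card I - 1) *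
      𝔼 y : B₂ → V, (∏ b, pw W (d.R₂ b) x (y b)) * Ph W d x y ^ Fintype.card I := by
  have hI : 0 < Fintype.card I := Fintype.card_pos
  have hI' : (0 : ℝ) < Fintype.card I := by exact_mod_cast hI
  set κ : (B₂ → V) → ℝ := fun y => ∏ b, (dg W (y b) ^ (1 - ((d.R₂ b).card : ℝ)) *
    pw W (d.R₂ b) x (y b)) with hκ
  set ψ : (B₂ → V) → ℝ := fun y => (∏ b, dg W (y b) ^ (hh d b - (1 - ((d.R₂ b).card : ℝ)))) *
    Ph W d x y with hψ
  have key := power_mean κ ψ
    (fun y => Finset.prod_nonneg fun b _ => mul_nonneg (Real.rpow_nonneg (dg_nonneg hW _) _)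
      (pw_nonneg hW _ _ _))
    (fun y => mul_nonneg (Finset.prod_nonneg fun b _ => Real.rpow_nonneg (dg_nonneg hW _) _)
      (Ph_nonneg d hW _ _)) (Fintype.card I) hI
  have e1 : GG W d x = 𝔼 y, κ y * ψ y := by
    have h1 : GG W d x = 𝔼 y : B₂ → V, (∏ b, (dg W (y b) ^ hh d b * pw W (d.R₂ b) x (y b))) *
        Ph W d x y := by
      unfold GG gg sb Ph
      have h2 : ∀ v : J → V, ff W d x v * ∏ b, 𝔼 y, dg W y ^ hh d b *
          (pw W (d.R₂ b) x y * pw W (d.U₂ b) v y) =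
          𝔼 y : B₂ → V, (∏ b, (dg W (y b) ^ hh d b * pw W (d.R₂ b) x (y b))) *
            (ff W d x v * ∏ b, pw W (d.U₂ b) v (y b)) := by
        intro v
        rw [prod_expect' (fun (b : B₂) (y : V) => dg W y ^ hh d b *
          (pw W (d.R₂ b) x y * pw W (d.U₂ b) v y)), Finset.mul_expect]
        refine Finset.expect_congr rfl fun y _ => ?_
        have h3 : ∏ b, dg W (y b) ^ hh d b * (pw W (d.R₂ b) x (y b) * pw W (d.U₂ b) v (y b)) =
            (∏ b, (dg W (y b) ^ hh d b * pw W (d.R₂ b) x (y b))) *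
              ∏ b, pw W (d.U₂ b) v (y b) := by
          rw [← Finset.prod_mul_distrib]
          exact Finset.prod_congr rfl fun b _ => by ring
        rw [h3]
        ring
      simp only [h2]
      rw [expect_comm']
      refine Finset.expect_congr rfl fun y _ => ?_
      rw [← Finset.mul_expect]
    rw [h1]
    refine Finset.expect_congr rfl fun y _ => ?_
    by_cases hy : ∃ b, dg W (y b) = 0
    · obtain ⟨b, hb⟩ := hy
      have h0 := pwPh_zero d hW hne x y b hb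
      have h4 : (∏ b, (dg W (y b) ^ hh d b * pw W (d.R₂ b) x (y b))) * Ph W d x y =
          (∏ b, dg W (y b) ^ hh d b) * ((∏ b, pw W (d.R₂ b) x (y b)) * Ph W d x y) := by
        rw [Finset.prod_mul_distrib]; ring
      have h5 : κ y * ψ y = (∏ b, dg W (y b) ^ (1 - ((d.R₂ b).card : ℝ))) *
          (∏ b, dg W (y b) ^ (hh d b - (1 - ((d.R₂ b).card : ℝ)))) *
          ((∏ b, pw W (d.R₂ b) x (y b)) * Ph W d x y) := by
        simp only [hκ, hψ, Finset.prod_mul_distrib]; ring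
      rw [h4, h5, h0, mul_zero, mul_zero]
    · push Not at hy
      have h6 : ∀ b, 0 < dg W (y b) := fun b => lt_of_le_of_ne (dg_nonneg hW _) (hy b).symm
      simp only [hκ, hψ]
      rw [← mul_assoc, ← Finset.prod_mul_distrib]
      congr 1
      refine Finset.prod_congr rfl fun b _ => ?_
      rw [mul_comm (dg W (y b) ^ (1 - ((d.R₂ b).card : ℝ))) _, mul_assoc,
        ← Real.rpow_add (h6 b), mul_comm]
      congr 2
      ring
  have e2 : ZZ W d x = 𝔼 y, κ y := by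
    unfold ZZ sb
    rw [prod_expect' (fun (b : B₂) (y : V) => dg W y ^ ex (d.R₂ b) (∅ : Finset J) *
      (pw W (d.R₂ b) x y * pw W ∅ (pt₀ J V) y))]
    refine Finset.expect_congr rfl fun y _ => ?_
    refine Finset.prod_congr rfl fun b _ => ?_
    simp [ex, pw]
  have e3 : 𝔼 y : B₂ → V, (∏ b, pw W (d.R₂ b) x (y b)) * Ph W d x y ^ Fintype.card I =
      𝔼 y, κ y * ψ y ^ Fintype.card I := by
    refine Finset.expect_congr rfl fun y _ => ?_
    by_cases hy : ∃ b, dg W (y b) = 0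
    · obtain ⟨b, hb⟩ := hy
      have h0 := pwPh_zero d hW hne x y b hb
      have h7 : Ph W d x y ^ Fintype.card I = Ph W d x y * Ph W d x y ^ (Fintype.card I - 1) := by
        rw [← pow_succ', Nat.sub_add_cancel hI]
      have h5 : κ y * ψ y ^ Fintype.card I = (∏ b, dg W (y b) ^ (1 - ((d.R₂ b).card : ℝ))) *
          (∏ b, dg W (y b) ^ (hh d b - (1 - ((d.R₂ b).card : ℝ)))) ^ Fintype.card I *
          Ph W d x y ^ (Fintype.card I - 1) *
          ((∏ b, pw W (d.R₂ b) x (y b)) * Ph W d x y) := by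
        simp only [hκ, hψ, Finset.prod_mul_distrib, mul_pow, h7]; ring
      rw [h5, h0, h7, ← mul_assoc, h0, mul_zero, zero_mul]
    · push Not at hy
      have h6 : ∀ b, 0 < dg W (y b) := fun b => lt_of_le_of_ne (dg_nonneg hW _) (hy b).symm
      simp only [hκ, hψ]
      rw [mul_pow, ← mul_assoc, ← Finset.prod_pow, ← Finset.prod_mul_distrib]
      congr 1
      refine Finset.prod_congr rfl fun b _ => ?_
      rw [← Real.rpow_natCast, ← Real.rpow_mul (h6 b).le,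
        mul_comm (dg W (y b) ^ (1 - ((d.R₂ b).card : ℝ))) _, mul_assoc, ← Real.rpow_add (h6 b)]
      have h8 : 1 - ((d.R₂ b).card : ℝ) + (hh d b - (1 - ((d.R₂ b).card : ℝ))) *
          (Fintype.card I : ℝ) = 0 := by
        unfold hh
        field_simp
        ring
      rw [h8, Real.rpow_zero, mul_one]
  rw [e1, e2, e3]
  exact key

end

end Pool.Agent.Lib.MP_426a66_co.H68
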