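import Pool.Agent.Lib.MP_426a66_co.H68.Core

/-!
# The fold inequality: entropy part
-/

set_option linter.all false

namespace Pool.Agent.Lib.MP_426a66_co.H68

open Finset
open scoped BigOperators

variable {V : Type} [Fintype V] [Nonempty V]
variable {P J : Type} [Fintype P] [DecidableEq P] [Fintype J] [DecidableEq J]
variable {I B₁ B₂ : Type} [Fintype I] [DecidableEq I] [AddCommGroup I] [Fintype B₁]
  [DecidableEq B₁] [Fintype B₂] [DecidableEq B₂]

/-- number of edges -/
def ed (d : Dat P J I B₁ B₂) : ℕ :=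
  ∑ b, ((d.R₁ b).card + (d.U₁ b).card) + ∑ b, ((d.R₂ b).card + Fintype.card I * (d.U₂ b).card)

/-- `T` -/
noncomputable def TT (W : V → V → ℝ) (d : Dat P J I B₁ B₂) : ℝ :=
  𝔼 x : P → V, GG W d x ^ Fintype.card I / ZZ W d x ^ (Fintype.card I - 1)

/-- the density of the marginal on `P` -/
noncomputable def rP (W : V → V → ℝ) (J : Type) [Fintype J] [DecidableEq J] (x : P → V) : ℝ :=
  sb W (ex (univ : Finset P) (∅ : Finset J)) univ ∅ x (pt₀ J V) / dl W

section

variable {W : V → V → ℝ} (d : Dat P J I B₁ B₂)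

lemma TT_le (hW : ∀ x y, 0 ≤ W x y) (hne : ∀ b, (d.R₂ b).Nonempty ∨ (d.U₂ b).Nonempty) :
    TT W d ≤ hd W d := by
  refine le_trans ?_ (step0 d hW)
  unfold TT
  refine Finset.expect_le_expect fun x _ => ?_
  rw [step1]
  have h0 : 0 ≤ 𝔼 y : B₂ → V, (∏ b, pw W (d.R₂ b) x (y b)) * Ph W d x y ^ Fintype.card I :=
    Finset.expect_nonneg fun y _ => mul_nonneg (Finset.prod_nonneg fun b _ => pw_nonneg hW _ _ _)
      (pow_nonneg (Ph_nonneg d hW _ _) _)
  refine div_le_of_le_mul₀ (pow_nonneg (ZZ_nonneg d hW x) _) h0 ?_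
  have := step2 d hW hne x
  linarith

lemma sb_pt (β : ℝ) (R : Finset P) (x : P → V) (v : J → V) :
    sb W β R (∅ : Finset J) x v = sb W β R (∅ : Finset J) x (pt₀ J V) :=
  sb_congr β R ∅ (fun _ _ => rfl) (fun a ha => absurd ha (Finset.notMem_empty a))

lemma ff_pos (hW : ∀ x y, 0 ≤ W x y) {ω : V × (P → V) × (J → V)} (h : 0 < pp W ω) :
    0 < ff W d ω.2.1 ω.2.2 :=
  Finset.prod_pos fun b _ => Real.rpow_pos_of_pos (sb_pos_of_pp hW h _ _ _) _

lemma gg_pos (hW : ∀ x y, 0 ≤ W x y) {ω : V × (P → V) × (J → V)} (h : 0 < pp W ω) :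
    0 < gg W d ω.2.1 ω.2.2 :=
  mul_pos (ff_pos d hW h) (Finset.prod_pos fun b _ => sb_pos_of_pp hW h _ _ _)

lemma GG_pos (hW : ∀ x y, 0 ≤ W x y) {ω : V × (P → V) × (J → V)} (h : 0 < pp W ω) :
    0 < GG W d ω.2.1 :=
  Finset.expect_pos' (fun v _ => gg_nonneg d hW _ _) ⟨ω.2.2, mem_univ _, gg_pos d hW h⟩

lemma ZZ_pos (hW : ∀ x y, 0 ≤ W x y) {ω : V × (P → V) × (J → V)} (h : 0 < pp W ω) :
    0 < ZZ W d ω.2.1 := by
  refine Finset.prod_pos fun b _ => ?_
  rw [← sb_pt _ _ _ ω.2.2]
  exact sb_pos_of_pp hW h _ _ _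

lemma rP_pos (hW : ∀ x y, 0 ≤ W x y) (hd' : 0 < dl W) {ω : V × (P → V) × (J → V)}
    (h : 0 < pp W ω) : 0 < rP W J ω.2.1 := by
  refine div_pos ?_ hd'
  rw [← sb_pt _ _ _ ω.2.2]
  exact sb_pos_of_pp hW h _ _ _

lemma exists_pp (hW : ∀ x y, 0 ≤ W x y) (hd' : 0 < dl W) :
    ∃ ω : V × (P → V) × (J → V), 0 < pp W ω := by
  by_contra hcon
  push Not at hcon
  have h1 : ∀ ω : V × (P → V) × (J → V), pp W ω = 0 :=
    fun ω => le_antisymm (hcon ω) (pp_nonneg hW ω)
  have h2 := EE_one (P := P) (J := J) hW hd'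
  unfold EE at h2
  simp [h1] at h2

lemma TT_pos (hW : ∀ x y, 0 ≤ W x y) (hd' : 0 < dl W) : 0 < TT W d := by
  obtain ⟨ω, h⟩ := exists_pp (P := P) (J := J) hW hd'
  refine Finset.expect_pos' (fun x _ => div_nonneg (pow_nonneg (GG_nonneg d hW _) _)
    (pow_nonneg (ZZ_nonneg d hW _) _)) ⟨ω.2.1, mem_univ _, ?_⟩
  have h1 := GG_pos d hW h
  have h2 := ZZ_pos d hW h
  positivity

/-- step 3: the entropy bound -/
lemma step3 (hW : ∀ x y, 0 ≤ W x y) (hd' : 0 < dl W) :
    (Fintype.card I : ℝ) * EE W (fun ω : V × (P → V) × (J → V) =>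
        Real.log (gg W d ω.2.1 ω.2.2)) -
      (Fintype.card I : ℝ) * DD W (univ : Finset P) (univ : Finset J) +
      ((Fintype.card I : ℝ) - 1) * DD W (univ : Finset P) (∅ : Finset J) -
      ((Fintype.card I : ℝ) - 1) * EE W (fun ω : V × (P → V) × (J → V) =>
        Real.log (ZZ W d ω.2.1)) ≤ Real.log (TT W d) := by
  have hI : 0 < Fintype.card I := Fintype.card_pos
  have hT := TT_pos d hW hd'
  -- first use of Jensen
  have j1 := EE_log (P := P) (J := J) hW hd'
    (fun ω => gg W d ω.2.1 ω.2.2 * rP W J ω.2.1 /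
      ((sb W (ex (univ : Finset P) (univ : Finset J)) univ univ ω.2.1 ω.2.2 / dl W) *
        GG W d ω.2.1)) (by
      intro ω h
      have h1 := gg_pos d hW h
      have h2 := rP_pos hW hd' h
      have h3 := sb_pos_of_pp hW h (ex (univ : Finset P) (univ : Finset J)) univ univ
      have h4 := GG_pos d hW h
      positivity) (by
      rw [EE_marg' hW univ univ (fun x v => gg W d x v * rP W J x /
        ((sb W (ex (univ : Finset P) (univ : Finset J)) univ univ x v / dl W) * GG W d x)) (by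
          intro x x' v v' hx hv
          rw [show x = x' from funext fun a => hx a (mem_univ a),
            show v = v' from funext fun a => hv a (mem_univ a)])]
      rw [← sb_total (P := P) (J := J) hW hd' univ ∅]
      refine Finset.expect_le_expect fun x _ => ?_
      have h5 : ∀ v : J → V, sb W (ex (univ : Finset P) (univ : Finset J)) univ univ x v / dl W *
          (gg W d x v * rP W J x /
          ((sb W (ex (univ : Finset P) (univ : Finset J)) univ univ x v / dl W) * GG W d x)) ≤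
          rP W J x / GG W d x * gg W d x v := by
        intro v
        have c1 := gg_nonneg d hW x v
        have c2 := GG_nonneg d hW x
        have c3 : 0 ≤ rP W J x := div_nonneg (sb_nonneg hW _ _ _ _ _) hd'.le
        rcases (sb_nonneg hW (ex (univ : Finset P) (univ : Finset J)) univ univ x v).eq_or_lt
          with h | h
        · rw [← h, zero_div, zero_mul]
          positivity
        · apply le_of_eq
          rcases c2.eq_or_lt with h6 | h6
          · rw [← h6]; simp
          · field_simp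
      refine (Finset.expect_le_expect fun v _ => h5 v).trans ?_
      rw [← Finset.mul_expect]
      show rP W J x / GG W d x * GG W d x ≤ _
      have h7 : 𝔼 v : J → V, sb W (ex (univ : Finset P) (∅ : Finset J)) univ ∅ x v / dl W =
          rP W J x := by
        have : ∀ v : J → V, sb W (ex (univ : Finset P) (∅ : Finset J)) univ ∅ x v / dl W =
            rP W J x := fun v => by rw [sb_pt]; rfl
        simp only [this, Fintype.expect_const]
      rw [h7]
      have c3 : 0 ≤ rP W J x := div_nonneg (sb_nonneg hW _ _ _ _ _) hd'.le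
      rcases (GG_nonneg d hW x).eq_or_lt with h | h
      · rw [← h]; simpa using c3
      · apply le_of_eq
        field_simp)
  -- second use of Jensen
  have j2 := EE_log (P := P) (J := J) hW hd'
    (fun ω => GG W d ω.2.1 ^ Fintype.card I /
      (ZZ W d ω.2.1 ^ (Fintype.card I - 1) * rP W J ω.2.1 * TT W d)) (by
      intro ω h
      have h1 := GG_pos d hW h
      have h2 := rP_pos hW hd' h
      have h3 := ZZ_pos d hW h
      positivity) (by
      rw [EE_marg' hW univ ∅ (fun x v => GG W d x ^ Fintype.card I /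
        (ZZ W d x ^ (Fintype.card I - 1) * rP W J x * TT W d)) (by
          intro x x' v v' hx hv
          rw [show x = x' from funext fun a => hx a (mem_univ a)])]
      have h5 : ∀ (x : P → V) (v : J → V),
          sb W (ex (univ : Finset P) (∅ : Finset J)) univ ∅ x v / dl W *
          (GG W d x ^ Fintype.card I /
            (ZZ W d x ^ (Fintype.card I - 1) * rP W J x * TT W d)) ≤
          GG W d x ^ Fintype.card I / ZZ W d x ^ (Fintype.card I - 1) / TT W d := by
        intro x v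
        have e1 : sb W (ex (univ : Finset P) (∅ : Finset J)) univ ∅ x v / dl W = rP W J x := by
          rw [sb_pt]; rfl
        rw [e1]
        have c1 := GG_nonneg d hW x
        have c2 := ZZ_nonneg d hW x
        have c3 : 0 ≤ rP W J x := div_nonneg (sb_nonneg hW _ _ _ _ _) hd'.le
        rcases c3.eq_or_lt with h | h
        · rw [← h, zero_mul]
          positivity
        · apply le_of_eq
          rcases (pow_nonneg c2 (Fintype.card I - 1)).eq_or_lt with h6 | h6
          · rw [← h6]; simp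
          · field_simp
      refine (Finset.expect_le_expect fun x _ => Finset.expect_le_expect fun v _ => h5 x v).trans ?_
      simp only [Fintype.expect_const]
      rw [← Finset.expect_div]
      show TT W d / TT W d ≤ 1
      rw [div_self hT.ne'])
  -- combination
  have e1 : EE W (fun ω : V × (P → V) × (J → V) => Real.log (gg W d ω.2.1 ω.2.2 * rP W J ω.2.1 /
      ((sb W (ex (univ : Finset P) (univ : Finset J)) univ univ ω.2.1 ω.2.2 / dl W) *
        GG W d ω.2.1))) =
      EE W (fun ω => Real.log (gg W d ω.2.1 ω.2.2)) + DD W (univ : Finset P) (∅ : Finset J) -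
      DD W (univ : Finset P) (univ : Finset J) - EE W (fun ω : V × (P → V) × (J → V) =>
        Real.log (GG W d ω.2.1)) := by
    rw [DD, DD, ← EE_add, ← EE_sub, ← EE_sub]
    apply EE_congr hW
    intro ω h
    have h1 := gg_pos d hW h
    have h2 := rP_pos hW hd' h
    have h3 := sb_pos_of_pp hW h (ex (univ : Finset P) (univ : Finset J)) univ univ
    have h4 := GG_pos d hW h
    have h5 : sb W (ex (univ : Finset P) (∅ : Finset J)) univ ∅ ω.2.1 ω.2.2 / dl W =
        rP W J ω.2.1 := by rw [sb_pt]; rfl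
    rw [h5, Real.log_div (by positivity) (by positivity), Real.log_mul h1.ne' h2.ne',
      Real.log_mul (by positivity) h4.ne']
    ring
  have e2 : EE W (fun ω : V × (P → V) × (J → V) => Real.log (GG W d ω.2.1 ^ Fintype.card I /
      (ZZ W d ω.2.1 ^ (Fintype.card I - 1) * rP W J ω.2.1 * TT W d))) =
      (Fintype.card I : ℝ) * EE W (fun ω : V × (P → V) × (J → V) => Real.log (GG W d ω.2.1)) -
      ((Fintype.card I : ℝ) - 1) * EE W (fun ω : V × (P → V) × (J → V) =>
        Real.log (ZZ W d ω.2.1)) -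
      DD W (univ : Finset P) (∅ : Finset J) - Real.log (TT W d) := by
    rw [DD, ← EE_mul, ← EE_mul, ← EE_const (P := P) (J := J) hW hd' (Real.log (TT W d)),
      ← EE_sub, ← EE_sub, ← EE_sub]
    apply EE_congr hW
    intro ω h
    have h1 := GG_pos d hW h
    have h2 := rP_pos hW hd' h
    have h3 := ZZ_pos d hW h
    have h5 : sb W (ex (univ : Finset P) (∅ : Finset J)) univ ∅ ω.2.1 ω.2.2 / dl W =
        rP W J ω.2.1 := by rw [sb_pt]; rfl
    have h6 : ((Fintype.card I - 1 : ℕ) : ℝ) = (Fintype.card I : ℝ) - 1 := by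
      rw [Nat.cast_sub hI]; simp
    rw [h5, Real.log_div (by positivity) (by positivity), Real.log_mul (by positivity) hT.ne',
      Real.log_mul (by positivity) h2.ne', Real.log_pow, Real.log_pow, h6]
    ring
  rw [e1] at j1
  rw [e2] at j2
  have hI' : (0 : ℝ) < Fintype.card I := by exact_mod_cast hI
  nlinarith [mul_le_mul_of_nonneg_left j1 hI'.le]

/-- the fold inequality -/
theorem core (hW : ∀ x y, 0 ≤ W x y) (hd' : 0 < dl W)
    (hne : ∀ b, (d.R₂ b).Nonempty ∨ (d.U₂ b).Nonempty)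
    (hfull : Fintype.card I ≤ (univ.filter fun b => d.R₁ b = univ ∧ d.U₁ b = univ).card) :
    dl W ^ ed d ≤ hd W d := by
  have hI : 0 < Fintype.card I := Fintype.card_pos
  have hI' : (0 : ℝ) < Fintype.card I := by exact_mod_cast hI
  have hI1 : (1 : ℝ) ≤ Fintype.card I := by exact_mod_cast hI
  have hT := TT_pos d hW hd'
  refine le_trans ?_ (TT_le d hW hne)
  have hL := LL_ge (P := P) (J := J) hW hd'
  set q : ℝ := (Fintype.card I : ℝ) with hq
  set D : ℝ := Real.log (dl W) with hD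
  have s3 := step3 d hW hd'
  -- the expectation of `log g`
  have g1 : EE W (fun ω : V × (P → V) × (J → V) => Real.log (gg W d ω.2.1 ω.2.2)) =
      q⁻¹ * ∑ b, EE W (fun ω : V × (P → V) × (J → V) =>
        Real.log (sb W 0 (d.R₁ b) (d.U₁ b) ω.2.1 ω.2.2)) +
      ∑ b, EE W (fun ω : V × (P → V) × (J → V) =>
        Real.log (sb W (hh d b) (d.R₂ b) (d.U₂ b) ω.2.1 ω.2.2)) := by
    rw [← EE_sum, ← EE_sum, ← EE_mul, ← EE_add]
    apply EE_congr hW
    intro ω h
    have h1 := ff_pos d hW h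
    have h2 : 0 < ∏ b, sb W (hh d b) (d.R₂ b) (d.U₂ b) ω.2.1 ω.2.2 :=
      Finset.prod_pos fun b _ => sb_pos_of_pp hW h _ _ _
    rw [gg, Real.log_mul h1.ne' h2.ne', Real.log_prod (fun b _ => (sb_pos_of_pp hW h _ _ _).ne'),
      ff, Real.log_prod (fun b _ => (Real.rpow_pos_of_pos (sb_pos_of_pp hW h _ _ _) _).ne'),
      Finset.mul_sum]
    congr 1
    refine Finset.sum_congr rfl fun b _ => ?_
    rw [Real.log_rpow (sb_pos_of_pp hW h _ _ _)]
  -- the expectation of `log Z`
  have g2 : EE W (fun ω : V × (P → V) × (J → V) => Real.log (ZZ W d ω.2.1)) =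
      ∑ b, (D + DD W (d.R₂ b) (∅ : Finset J)) := by
    have h0 : ∀ b, D + DD W (d.R₂ b) (∅ : Finset J) =
        EE W (fun ω : V × (P → V) × (J → V) =>
          Real.log (sb W (ex (d.R₂ b) (∅ : Finset J)) (d.R₂ b) ∅ ω.2.1 ω.2.2)) := by
      intro b
      rw [DD, hD, ← EE_const (P := P) (J := J) hW hd' (Real.log (dl W)), ← EE_add]
      apply EE_congr hW
      intro ω h
      rw [Real.log_div (sb_pos_of_pp hW h _ _ _).ne' hd'.ne']
      ring
    simp only [h0]
    rw [← EE_sum]
    apply EE_congr hW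
    intro ω h
    rw [ZZ, Real.log_prod]
    · refine Finset.sum_congr rfl fun b _ => ?_
      rw [sb_pt _ _ _ ω.2.2]
    · intro b _
      rw [← sb_pt _ _ _ ω.2.2]
      exact (sb_pos_of_pp hW h _ _ _).ne'
  -- lower bounds
  have b1 : ∀ b, (((d.R₁ b).card : ℝ) + ((d.U₁ b).card : ℝ)) * D + DD W (d.R₁ b) (d.U₁ b) ≤
      EE W (fun ω : V × (P → V) × (J → V) =>
        Real.log (sb W 0 (d.R₁ b) (d.U₁ b) ω.2.1 ω.2.2)) := by
    intro b
    by_cases he : (d.R₁ b).card + (d.U₁ b).card = 0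
    · have hR : d.R₁ b = ∅ := Finset.card_eq_zero.1 (by omega)
      have hU : d.U₁ b = ∅ := Finset.card_eq_zero.1 (by omega)
      rw [hR, hU, DD_empty hW hd']
      have : ∀ ω : V × (P → V) × (J → V),
          Real.log (sb W 0 (∅ : Finset P) (∅ : Finset J) ω.2.1 ω.2.2) = 0 := by
        intro ω
        simp [sb, pw]
      simp only [this, EE_const hW hd']
      simp
    · have h1 := EE_log_sb (P := P) (J := J) hW hd' 0 (d.R₁ b) (d.U₁ b)
      have h2 : (1 : ℝ) ≤ ((d.R₁ b).card : ℝ) + ((d.U₁ b).card : ℝ) := by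
        have : 1 ≤ (d.R₁ b).card + (d.U₁ b).card := by omega
        exact_mod_cast this
      have h3 : (0 : ℝ) - ex (d.R₁ b) (d.U₁ b) =
          ((d.R₁ b).card : ℝ) + ((d.U₁ b).card : ℝ) - 1 := by unfold ex; ring
      rw [h3] at h1
      nlinarith [mul_le_mul_of_nonneg_left hL (sub_nonneg.2 h2)]
  have b2 : ∀ b, (((d.R₂ b).card : ℝ) + q * ((d.U₂ b).card : ℝ)) * D ≤
      q * EE W (fun ω : V × (P → V) × (J → V) =>
        Real.log (sb W (hh d b) (d.R₂ b) (d.U₂ b) ω.2.1 ω.2.2)) -
      (q - 1) * (D + DD W (d.R₂ b) (∅ : Finset J)) := by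
    intro b
    have h1 := EE_log_sb (P := P) (J := J) hW hd' (hh d b) (d.R₂ b) (d.U₂ b)
    have h2 : DD W (d.R₂ b) (∅ : Finset J) ≤ DD W (d.R₂ b) (d.U₂ b) :=
      DD_mono hW hd' (Finset.Subset.refl _) (Finset.empty_subset _)
    have h3 : 0 ≤ DD W (d.R₂ b) (d.U₂ b) := DD_nonneg hW hd' _ _
    have h4 : q * (hh d b - ex (d.R₂ b) (d.U₂ b)) =
        ((d.R₂ b).card : ℝ) + q * ((d.U₂ b).card : ℝ) - 1 := by
      unfold hh ex
      rw [← hq]
      field_simp
      ring
    have h5 : (1 : ℝ) ≤ ((d.R₂ b).card : ℝ) + q * ((d.U₂ b).card : ℝ) := by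
      rcases hne b with h | h
      · have c1 : (1 : ℝ) ≤ (d.R₂ b).card := by exact_mod_cast h.card_pos
        have c2 : (0 : ℝ) ≤ (d.U₂ b).card := Nat.cast_nonneg _
        nlinarith
      · have c1 : (1 : ℝ) ≤ (d.U₂ b).card := by exact_mod_cast h.card_pos
        have c2 : (0 : ℝ) ≤ (d.R₂ b).card := Nat.cast_nonneg _
        nlinarith
    have h6 := mul_le_mul_of_nonneg_left h1 hI'.le
    have h7 : q * (D + DD W (d.R₂ b) (d.U₂ b) + (hh d b - ex (d.R₂ b) (d.U₂ b)) * LL W P J) =
        q * D + q * DD W (d.R₂ b) (d.U₂ b) +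
          (((d.R₂ b).card : ℝ) + q * ((d.U₂ b).card : ℝ) - 1) * LL W P J := by
      rw [← h4]; ring
    rw [h7] at h6
    nlinarith [mul_le_mul_of_nonneg_left hL (sub_nonneg.2 h5),
      mul_le_mul_of_nonneg_left h2 (sub_nonneg.2 hI1)]
  -- the full vertices
  have b3 : q * DD W (univ : Finset P) (univ : Finset J) ≤ ∑ b, DD W (d.R₁ b) (d.U₁ b) := by
    have h1 : ∑ b ∈ univ.filter (fun b => d.R₁ b = univ ∧ d.U₁ b = univ),
        DD W (d.R₁ b) (d.U₁ b) ≤ ∑ b, DD W (d.R₁ b) (d.U₁ b) :=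
      Finset.sum_le_sum_of_subset_of_nonneg (Finset.filter_subset _ _)
        fun b _ _ => DD_nonneg hW hd' _ _
    have h2 : ∑ b ∈ univ.filter (fun b => d.R₁ b = univ ∧ d.U₁ b = univ),
        DD W (d.R₁ b) (d.U₁ b) =
        ((univ.filter fun b => d.R₁ b = univ ∧ d.U₁ b = univ).card : ℝ) *
          DD W (univ : Finset P) (univ : Finset J) := by
      rw [← nsmul_eq_mul, ← Finset.sum_const]
      refine Finset.sum_congr rfl fun b hb => ?_
      rw [Finset.mem_filter] at hb
      rw [hb.2.1, hb.2.2]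
    have h3 : q ≤ ((univ.filter fun b => d.R₁ b = univ ∧ d.U₁ b = univ).card : ℝ) := by
      rw [hq]; exact_mod_cast hfull
    have h4 : 0 ≤ DD W (univ : Finset P) (univ : Finset J) := DD_nonneg hW hd' _ _
    nlinarith
  have b4 : 0 ≤ DD W (univ : Finset P) (∅ : Finset J) := DD_nonneg hW hd' _ _
  have s1 := Finset.sum_le_sum fun b (_ : b ∈ (univ : Finset B₁)) => b1 b
  have s2 := Finset.sum_le_sum fun b (_ : b ∈ (univ : Finset B₂)) => b2 b
  rw [Finset.sum_add_distrib, ← Finset.sum_mul] at s1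
  rw [Finset.sum_sub_distrib, ← Finset.sum_mul, ← Finset.mul_sum, ← Finset.mul_sum] at s2
  rw [g1, g2] at s3
  have fin : (ed d : ℝ) * D ≤ Real.log (TT W d) := by
    have he : (ed d : ℝ) = ∑ b, (((d.R₁ b).card : ℝ) + ((d.U₁ b).card : ℝ)) +
        ∑ b, (((d.R₂ b).card : ℝ) + q * ((d.U₂ b).card : ℝ)) := by
      unfold ed
      push_cast
      rfl
    rw [he, add_mul]
    have c1 : q * (q⁻¹ * ∑ b, EE W (fun ω : V × (P → V) × (J → V) =>
        Real.log (sb W 0 (d.R₁ b) (d.U₁ b) ω.2.1 ω.2.2)) +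
      ∑ b, EE W (fun ω : V × (P → V) × (J → V) =>
        Real.log (sb W (hh d b) (d.R₂ b) (d.U₂ b) ω.2.1 ω.2.2))) =
        ∑ b, EE W (fun ω : V × (P → V) × (J → V) =>
        Real.log (sb W 0 (d.R₁ b) (d.U₁ b) ω.2.1 ω.2.2)) + q *
      ∑ b, EE W (fun ω : V × (P → V) × (J → V) =>
        Real.log (sb W (hh d b) (d.R₂ b) (d.U₂ b) ω.2.1 ω.2.2)) := by
      field_simp
    rw [c1] at s3
    have c2 : 0 ≤ (q - 1) * DD W (univ : Finset P) (∅ : Finset J) :=
      mul_nonneg (sub_nonneg.2 hI1) b4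
    linarith
  rw [← Real.log_le_log_iff (by positivity) hT, Real.log_pow]
  exact fin

end

end Pool.Agent.Lib.MP_426a66_co.H68
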