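import Pool.Agent.Lib.MP_426a66_co.H54.Defs

/-!
# Folded bigraphs (definitions)

A bigraph with sides `A`, `B` is a relation `E : A → B → Prop`. A family of blocks
`blk : Fin q → Fin j → A` gives `q` disjoint blocks of `j` vertices each; `blk i t` is the `t`-th
vertex of the `i`-th block.
-/

set_option autoImplicit false

namespace Pool.Agent.Lib.MP_426a66_co

/-- The vertex `b` has neighbours in at most one block. -/
def InBranch {A B : Type} (E : A → B → Prop) {q j : ℕ} (blk : Fin q → Fin j → A) (b : B) : Prop :=
  ∃ i, ∀ i', i' ≠ i → ∀ t, ¬ E (blk i' t) b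

/-- The vertex `b` meets all blocks in the same way. -/
def Crossing {A B : Type} (E : A → B → Prop) {q j : ℕ} (blk : Fin q → Fin j → A) (b : B) : Prop :=
  ∀ i i' t, E (blk i t) b ↔ E (blk i' t) b

/-- The neighbours of `b` are exactly the vertices of `A` which lie outside of all blocks except
one. -/
def FullBranch {A B : Type} (E : A → B → Prop) {q j : ℕ} (blk : Fin q → Fin j → A) (b : B) :
    Prop :=
  ∃ i, ∀ a, E a b ↔ ∀ i', i' ≠ i → ∀ t, a ≠ blk i' t

/-- The bigraph `E` is folded: there are `q ≥ 1` disjoint blocks of `j` vertices each in `A`, such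
that every vertex of `B` either has neighbours in at most one block or meets all blocks in the same
way, and at least `q` vertices of `B` are adjacent exactly to the vertices outside of all blocks
except one. -/
def IsFolded {A B : Type} (E : A → B → Prop) : Prop :=
  ∃ (q j : ℕ) (blk : Fin q → Fin j → A), 0 < q ∧
    (∀ i t i' t', blk i t = blk i' t' → i = i' ∧ t = t') ∧
    (∀ b, InBranch E blk b ∨ Crossing E blk b) ∧
    q ≤ Nat.card {b : B // FullBranch E blk b}

/-- Two vertices of `B` are adjacent to all vertices of `A` with at most one exception each. -/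
def TwoNearlyComplete {A B : Type} (E : A → B → Prop) : Prop :=
  ∃ b b' : B, b ≠ b' ∧ Nat.card {a : A // ¬ E a b} ≤ 1 ∧ Nat.card {a : A // ¬ E a b'} ≤ 1

end Pool.Agent.Lib.MP_426a66_co
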