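import Pool.Agent.Lib.MP_426a66_co.H68.Core2
import Pool.Agent.Lib.MP_426a66_co.H68.Fold

/-!
# Folded bigraphs have Sidorenko's property
-/

set_option linter.all false
set_option autoImplicit false

namespace Pool.Agent.Lib.MP_426a66_co.H68

open Finset
open scoped BigOperators
open Classical

section

variable {A B : Type} [Fintype A] [Fintype B] (E : A → B → Prop) {q j : ℕ}
  (blk : Fin q → Fin j → A)

/-- the vertices of `A` outside of the blocks -/
abbrev PT : Type := {a : A // ∀ i t, a ≠ blk i t}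

/-- vertices of the first kind -/
abbrev BT₁ : Type := {b : B // InBranch E blk b}

/-- vertices of the second kind -/
abbrev BT₂ : Type := {b : B // ¬ InBranch E blk b}

/-- the data of a folded bigraph -/
noncomputable def dat [NeZero q] : Dat (PT blk) (Fin j) (Fin q) (BT₁ E blk) (BT₂ E blk) where
  i₁ b := b.2.choose
  R₁ b := univ.filter fun p => E p.1 b.1
  U₁ b := univ.filter fun t => E (blk b.2.choose t) b.1
  R₂ b := univ.filter fun p => E p.1 b.1
  U₂ b := univ.filter fun t => E (blk 0 t) b.1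

variable {blk}

/-- decomposition of `A` -/
noncomputable def sA (hinj : ∀ i t i' t', blk i t = blk i' t' → i = i' ∧ t = t') :
    PT blk ⊕ (Fin q × Fin j) ≃ A :=
  Equiv.ofBijective (Sum.elim Subtype.val fun z => blk z.1 z.2) (by
    constructor
    · rintro (⟨a, ha⟩ | ⟨i, t⟩) (⟨a', ha'⟩ | ⟨i', t'⟩) h
      all_goals simp only [Sum.elim_inl, Sum.elim_inr] at h
      · subst h; rfl
      · exact absurd h (ha i' t')
      · exact absurd h.symm (ha' i t)
      · obtain ⟨rfl, rfl⟩ := hinj _ _ _ _ h; rfl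
    · intro c
      by_cases hc' : ∃ i t, c = blk i t
      · obtain ⟨i, t, rfl⟩ := hc'
        exact ⟨Sum.inr (i, t), rfl⟩
      · push Not at hc'
        exact ⟨Sum.inl ⟨c, hc'⟩, rfl⟩)

lemma prod_A {M : Type} [CommMonoid M]
    (hinj : ∀ i t i' t', blk i t = blk i' t' → i = i' ∧ t = t') (f : A → M) :
    ∏ a, f a = (∏ p : PT blk, f p.1) * ∏ i, ∏ t, f (blk i t) := by
  rw [← Equiv.prod_comp (sA hinj), Fintype.prod_sum_type, Fintype.prod_prod_type]
  rfl

/-- decomposition of maps -/
noncomputable def eA (hinj : ∀ i t i' t', blk i t = blk i' t' → i = i' ∧ t = t') (X : Type) :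
    (A → X) ≃ (PT blk → X) × (Fin q → Fin j → X) :=
  ((sA hinj).symm.arrowCongr (Equiv.refl X)).trans
    ((Equiv.sumArrowEquivProdArrow _ _ _).trans (Equiv.prodCongr (Equiv.refl _)
      (Equiv.curry _ _ _)))

lemma eA_apply (hinj : ∀ i t i' t', blk i t = blk i' t' → i = i' ∧ t = t') (X : Type)
    (α : A → X) : eA hinj X α = (fun p => α p.1, fun i t => α (blk i t)) := rfl

lemma fac₁ {M : Type} [CommMonoid M]
    (hinj : ∀ i t i' t', blk i t = blk i' t' → i = i' ∧ t = t') (f : A → M) (b : BT₁ E blk) :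
    (∏ a, if E a b.1 then f a else 1) =
      (∏ p ∈ univ.filter (fun p : PT blk => E p.1 b.1), f p.1) *
        ∏ t ∈ univ.filter (fun t => E (blk b.2.choose t) b.1), f (blk b.2.choose t) := by
  rw [prod_A hinj, Finset.prod_filter, Finset.prod_filter]
  congr 1
  refine Finset.prod_eq_single b.2.choose (fun i _ hi => ?_) (fun h => absurd (mem_univ _) h)
  refine Finset.prod_eq_one fun t _ => ?_
  rw [if_neg (b.2.choose_spec i hi t)]

lemma fac₂ [NeZero q] {M : Type} [CommMonoid M]
    (hinj : ∀ i t i' t', blk i t = blk i' t' → i = i' ∧ t = t')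
    (hc : ∀ b, InBranch E blk b ∨ Crossing E blk b) (f : A → M) (b : BT₂ E blk) :
    (∏ a, if E a b.1 then f a else 1) =
      (∏ p ∈ univ.filter (fun p : PT blk => E p.1 b.1), f p.1) *
        ∏ i, ∏ t ∈ univ.filter (fun t => E (blk 0 t) b.1), f (blk i t) := by
  have hb : Crossing E blk b.1 := (hc b.1).resolve_left b.2
  rw [prod_A hinj, Finset.prod_filter]
  congr 1
  refine Finset.prod_congr rfl fun i _ => ?_
  rw [Finset.prod_filter]
  refine Finset.prod_congr rfl fun t _ => ?_
  exact if_congr (hb i 0 t) rfl rfl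

variable {V : Type} [Fintype V] [Nonempty V]

lemma hd_dat [NeZero q] (W : V → V → ℝ)
    (hinj : ∀ i t i' t', blk i t = blk i' t' → i = i' ∧ t = t')
    (hc : ∀ b, InBranch E blk b ∨ Crossing E blk b) :
    hd W (dat E blk) = 𝔼 α : A → V, ∏ b : B, 𝔼 y : V, ∏ a, if E a b then W (α a) y else 1 := by
  symm
  unfold hd
  rw [← expect_prod' (fun (x : PT blk → V) (u : Fin q → Fin j → V) =>
    (∏ b, sb W 0 ((dat E blk).R₁ b) ((dat E blk).U₁ b) x (u ((dat E blk).i₁ b))) *
    ∏ b, 𝔼 y, pw W ((dat E blk).R₂ b) x y * ∏ i, pw W ((dat E blk).U₂ b) (u i) y)]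
  refine Fintype.expect_equiv (eA hinj V) _ _ fun α => ?_
  rw [eA_apply, ← Fintype.prod_subtype_mul_prod_subtype (fun b => InBranch E blk b)]
  congr 1
  · refine Finset.prod_congr rfl fun b _ => ?_
    unfold sb
    refine Finset.expect_congr rfl fun y _ => ?_
    rw [Real.rpow_zero, one_mul, fac₁ E hinj (fun a => W (α a) y) b]
    rfl
  · refine Finset.prod_congr rfl fun b _ => ?_
    refine Finset.expect_congr rfl fun y _ => ?_
    rw [fac₂ E hinj hc (fun a => W (α a) y) b]
    rfl

lemma ed_dat [NeZero q]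
    (hinj : ∀ i t i' t', blk i t = blk i' t' → i = i' ∧ t = t')
    (hc : ∀ b, InBranch E blk b ∨ Crossing E blk b) :
    ed (dat E blk) = edges E := by
  have h1 : edges E = ∑ b : B, ∑ a : A, if E a b then 1 else 0 := by
    unfold edges
    rw [Nat.card_eq_fintype_card, Fintype.card_subtype, Finset.card_filter,
      Fintype.sum_prod_type_right]
  have h2 : ∀ b : BT₁ E blk, (∑ a : A, if E a b.1 then 1 else 0) =
      ((dat E blk).R₁ b).card + ((dat E blk).U₁ b).card := by
    intro b
    have h3 := fac₁ (M := Multiplicative ℕ) E hinj (fun _ => Multiplicative.ofAdd 1) b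
    have h4 := congrArg Multiplicative.toAdd h3
    rw [toAdd_mul, toAdd_prod, toAdd_prod, toAdd_prod] at h4
    simp only [toAdd_ofAdd, Finset.sum_const, smul_eq_mul, mul_one] at h4
    rw [show (dat E blk).R₁ b = univ.filter (fun p : PT blk => E p.1 b.1) from rfl,
      show (dat E blk).U₁ b = univ.filter (fun t => E (blk b.2.choose t) b.1) from rfl, ← h4]
    refine Finset.sum_congr rfl fun a _ => ?_
    split_ifs <;> rfl
  have h5 : ∀ b : BT₂ E blk, (∑ a : A, if E a b.1 then 1 else 0) =
      ((dat E blk).R₂ b).card + q * ((dat E blk).U₂ b).card := by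
    intro b
    have h3 := fac₂ (M := Multiplicative ℕ) E hinj hc (fun _ => Multiplicative.ofAdd 1) b
    have h4 := congrArg Multiplicative.toAdd h3
    rw [toAdd_mul, toAdd_prod, toAdd_prod, toAdd_prod] at h4
    simp only [toAdd_prod, toAdd_ofAdd, Finset.sum_const, smul_eq_mul, mul_one, Finset.card_univ,
      Fintype.card_fin] at h4
    rw [show (dat E blk).R₂ b = univ.filter (fun p : PT blk => E p.1 b.1) from rfl,
      show (dat E blk).U₂ b = univ.filter (fun t => E (blk 0 t) b.1) from rfl, ← h4]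
    refine Finset.sum_congr rfl fun a _ => ?_
    split_ifs <;> rfl
  rw [h1, ← Fintype.sum_subtype_add_sum_subtype (fun b => InBranch E blk b)]
  unfold ed
  rw [Fintype.card_fin]
  congr 1
  · exact Finset.sum_congr rfl fun b _ => (h2 b).symm
  · exact Finset.sum_congr rfl fun b _ => (h5 b).symm

lemma full_dat [NeZero q]
    (hinj : ∀ i t i' t', blk i t = blk i' t' → i = i' ∧ t = t')
    (hf : q ≤ Nat.card {b : B // FullBranch E blk b}) :
    Fintype.card (Fin q) ≤ (univ.filter fun b =>
      (dat E blk).R₁ b = univ ∧ (dat E blk).U₁ b = univ).card := by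
  rw [Fintype.card_fin]
  refine hf.trans ?_
  rw [Nat.card_eq_fintype_card]
  have key : ∀ b, FullBranch E blk b → ∃ h : InBranch E blk b,
      (dat E blk).R₁ ⟨b, h⟩ = univ ∧ (dat E blk).U₁ ⟨b, h⟩ = univ := by
    rintro b ⟨i, hi⟩
    have hb : InBranch E blk b := ⟨i, fun i' hi' t h => (hi _).1 h i' hi' t rfl⟩
    refine ⟨hb, ?_, ?_⟩
    · rw [Finset.eq_univ_iff_forall]
      intro p
      exact Finset.mem_filter.2 ⟨mem_univ _, (hi p.1).2 fun i' _ t => p.2 i' t⟩
    · rw [Finset.eq_univ_iff_forall]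
      intro t
      refine Finset.mem_filter.2 ⟨mem_univ _, ?_⟩
      have h1 : i = hb.choose := by
        by_contra hne
        have h2 : E (blk i t) b := (hi _).2 fun i' hi' t' h => hi' (hinj _ _ _ _ h).1.symm
        exact hb.choose_spec i hne t h2
      change E (blk hb.choose t) b
      rw [← h1]
      exact (hi _).2 fun i' hi' t' h => hi' (hinj _ _ _ _ h).1.symm
  refine Fintype.card_le_of_injective (β := {b // b ∈ univ.filter fun b =>
      (dat E blk).R₁ b = univ ∧ (dat E blk).U₁ b = univ})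
    (fun b => ⟨⟨b.1, (key b.1 b.2).choose⟩, Finset.mem_filter.2 ⟨mem_univ _,
      (key b.1 b.2).choose_spec⟩⟩) ?_ |>.trans (le_of_eq (Fintype.card_coe _))
  intro b b' h
  simp only [Subtype.mk.injEq] at h
  exact Subtype.ext h

lemma ne_dat [NeZero q] (hc : ∀ b, InBranch E blk b ∨ Crossing E blk b) (b : BT₂ E blk) :
    ((dat E blk).R₂ b).Nonempty ∨ ((dat E blk).U₂ b).Nonempty := by
  right
  have hb : Crossing E blk b.1 := (hc b.1).resolve_left b.2
  have h1 := b.2
  unfold InBranch at h1
  push Not at h1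
  obtain ⟨i, _, t, ht⟩ := h1 0
  exact ⟨t, Finset.mem_filter.2 ⟨mem_univ _, (hb i 0 t).1 ht⟩⟩

/-- Sidorenko's inequality for nonnegative kernels -/
theorem sid_kernel [NeZero q] (W : V → V → ℝ) (hW : ∀ x y, 0 ≤ W x y) (hd' : 0 < dl W)
    (hinj : ∀ i t i' t', blk i t = blk i' t' → i = i' ∧ t = t')
    (hc : ∀ b, InBranch E blk b ∨ Crossing E blk b)
    (hf : q ≤ Nat.card {b : B // FullBranch E blk b}) :
    dl W ^ edges E ≤ 𝔼 α : A → V, ∏ b : B, 𝔼 y : V, ∏ a, if E a b then W (α a) y else 1 := by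
  rw [← hd_dat E W hinj hc, ← ed_dat E hinj hc]
  exact core (dat E blk) hW hd' (ne_dat E hc) (full_dat E hinj hf)

end

end Pool.Agent.Lib.MP_426a66_co.H68
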