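import Pool.Agent.Lib.MP_426a66_co.H68.Graph

/-!
# Folded bigraphs have Sidorenko's property
-/

set_option linter.all false
set_option autoImplicit false

namespace Pool.Agent.Lib.MP_426a66_co.H68

open Finset
open scoped BigOperators
open Classical

section

variable {X Y : Type} [Fintype X] [Fintype Y]

lemma expect_fst [Nonempty Y] (F : X → ℝ) : 𝔼 z : X × Y, F z.1 = 𝔼 x, F x := by
  rw [expect_prod' (fun (x : X) (_ : Y) => F x)]
  simp

lemma expect_snd [Nonempty X] (F : Y → ℝ) : 𝔼 z : X × Y, F z.2 = 𝔼 y, F y := by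
  rw [expect_prod' (fun (_ : X) (y : Y) => F y)]
  simp

lemma expect_fst_fun {A : Type} [Fintype A] [Nonempty Y] (F : (A → X) → ℝ) :
    𝔼 α : A → X × Y, F (fun a => (α a).1) = 𝔼 α : A → X, F α := by
  rw [← expect_fst (X := A → X) (Y := A → Y) F]
  exact Fintype.expect_equiv (Equiv.arrowProdEquivProdArrow A (fun _ => X) (fun _ => Y)) _ _ fun α => rfl

lemma expect_ind {Z : Type} [Fintype Z] (Q : Z → Prop) [DecidablePred Q] :
    𝔼 z : Z, (if Q z then (1 : ℝ) else 0) = (Nat.card {z // Q z} : ℝ) / Fintype.card Z := by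
  rw [Fintype.expect_eq_sum_div_card, Finset.sum_boole, Nat.card_eq_fintype_card,
    Fintype.card_subtype]

end

section

variable {A B : Type} [Fintype A] [Fintype B] (E : A → B → Prop)

lemma homs_empty {X Y : Type} [Fintype X] [Fintype Y] (R : X → Y → Prop) (h : ∀ a b, ¬ E a b) :
    homs E R = Fintype.card X ^ Fintype.card A * Fintype.card Y ^ Fintype.card B := by
  unfold homs
  rw [Nat.card_congr (Equiv.subtypeUnivEquiv fun p a b hab => absurd hab (h a b)), Nat.card_prod,
    Nat.card_fun, Nat.card_fun]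
  simp only [Nat.card_eq_fintype_card]

/-- folded bigraphs have Sidorenko's property -/
theorem sidorenko_of_folded (h : IsFolded E) : Sidorenko E := by
  obtain ⟨q, j, blk, hq, hinj, hc, hf⟩ := h
  haveI : NeZero q := ⟨hq.ne'⟩
  intro X Y _ _ R
  by_cases he : edges E = 0
  · have h1 : ∀ a b, ¬ E a b := by
      intro a b hab
      have h2 : Nat.card {p : A × B // E p.1 p.2} = 0 := he
      rw [Nat.card_eq_zero] at h2
      rcases h2 with h2 | h2
      · exact h2.false ⟨(a, b), hab⟩
      · exact h2.not_finite (Subtype.finite)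
    rw [he, pow_zero, pow_zero, mul_one, mul_one, homs_empty E R h1]
  by_cases hR : edges R = 0
  · rw [hR, zero_pow he, mul_zero]
    exact Nat.zero_le _
  have hne : Nonempty {p : X × Y // R p.1 p.2} := by
    by_contra h1
    rw [not_nonempty_iff] at h1
    exact hR Nat.card_of_isEmpty
  obtain ⟨⟨⟨x₀, y₀⟩, h₀⟩⟩ := hne
  haveI : Nonempty X := ⟨x₀⟩
  haveI : Nonempty Y := ⟨y₀⟩
  set W : X × Y → X × Y → ℝ := fun z z' => if R z.1 z'.2 then 1 else 0 with hW
  have hW0 : ∀ z z', 0 ≤ W z z' := by
    intro z z'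
    simp only [hW]
    split_ifs <;> norm_num
  have hX : (0 : ℝ) < Fintype.card X := by exact_mod_cast Fintype.card_pos
  have hY : (0 : ℝ) < Fintype.card Y := by exact_mod_cast Fintype.card_pos
  have e1 : dl W = (edges R : ℝ) / ((Fintype.card X : ℝ) * Fintype.card Y) := by
    have h1 : dl W = 𝔼 y : Y, 𝔼 x : X, (if R x y then (1 : ℝ) else 0) := by
      unfold dl dg
      rw [← expect_snd (X := X) (fun y => 𝔼 x : X, (if R x y then (1 : ℝ) else 0))]
      refine Finset.expect_congr rfl fun z' _ => ?_
      exact expect_fst (Y := Y) (fun x => if R x z'.2 then (1 : ℝ) else 0)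
    rw [h1, expect_comm', ← expect_prod' (fun (x : X) (y : Y) => if R x y then (1 : ℝ) else 0),
      expect_ind (fun z : X × Y => R z.1 z.2), Fintype.card_prod]
    push_cast
    rfl
  have e2 : (𝔼 α : A → X × Y, ∏ b : B, 𝔼 y : X × Y, ∏ a, if E a b then W (α a) y else 1) =
      (homs E R : ℝ) / ((Fintype.card X : ℝ) ^ Fintype.card A *
        (Fintype.card Y : ℝ) ^ Fintype.card B) := by
    have h1 : (𝔼 α : A → X × Y, ∏ b : B, 𝔼 y : X × Y, ∏ a, if E a b then W (α a) y else 1) =
        𝔼 α : A → X, ∏ b : B, 𝔼 y : Y, ∏ a, if E a b then (if R (α a) y then (1 : ℝ) else 0)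
          else 1 := by
      rw [← expect_fst_fun (Y := Y) (fun α : A → X => ∏ b : B, 𝔼 y : Y, ∏ a,
        if E a b then (if R (α a) y then (1 : ℝ) else 0) else 1)]
      refine Finset.expect_congr rfl fun α _ => Finset.prod_congr rfl fun b _ => ?_
      exact expect_snd (X := X) (fun y => ∏ a, if E a b then (if R (α a).1 y then (1 : ℝ) else 0)
        else 1)
    have h2 : ∀ (α : A → X), ∏ b : B, 𝔼 y : Y, (∏ a, if E a b then
        (if R (α a) y then (1 : ℝ) else 0) else 1) =
        𝔼 β : B → Y, if ∀ a b, E a b → R (α a) (β b) then (1 : ℝ) else 0 := by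
      intro α
      rw [prod_expect' (fun (b : B) (y : Y) => ∏ a, if E a b then
        (if R (α a) y then (1 : ℝ) else 0) else 1)]
      refine Finset.expect_congr rfl fun β _ => ?_
      split_ifs with h3
      · refine Finset.prod_eq_one fun b _ => Finset.prod_eq_one fun a _ => ?_
        split_ifs with h4 h5
        · rfl
        · exact absurd (h3 a b h4) h5
        · rfl
      · push Not at h3
        obtain ⟨a, b, h4, h5⟩ := h3
        refine Finset.prod_eq_zero (mem_univ b) (Finset.prod_eq_zero (mem_univ a) ?_)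
        rw [if_pos h4, if_neg h5]
    rw [h1]
    simp only [h2]
    rw [← expect_prod' (fun (α : A → X) (β : B → Y) =>
      if ∀ a b, E a b → R (α a) (β b) then (1 : ℝ) else 0),
      expect_ind (fun z : (A → X) × (B → Y) => ∀ a b, E a b → R (z.1 a) (z.2 b)),
      Fintype.card_prod, Fintype.card_fun, Fintype.card_fun]
    push_cast
    rfl
  have hR' : (0 : ℝ) < edges R := by exact_mod_cast Nat.pos_of_ne_zero hR
  have key := sid_kernel E W hW0 (by rw [e1]; positivity) hinj hc hf
  rw [e1, e2, div_pow, div_le_div_iff₀ (by positivity) (by positivity)] at key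
  have h3 : ((Fintype.card X ^ Fintype.card A * Fintype.card Y ^ Fintype.card B *
      edges R ^ edges E : ℕ) : ℝ) ≤ ((homs E R * (Fintype.card X * Fintype.card Y) ^ edges E : ℕ) : ℝ) := by
    push_cast
    linarith
  exact_mod_cast h3

end

end Pool.Agent.Lib.MP_426a66_co.H68
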