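import Pool.Agent.Lib.MP_426a66_co.H68.Avg

/-!
# The star law and its entropies
-/

set_option linter.all false

namespace Pool.Agent.Lib.MP_426a66_co.H68

open Finset
open scoped BigOperators

variable {V : Type} [Fintype V] [Nonempty V]
variable {P J : Type} [Fintype P] [DecidableEq P] [Fintype J] [DecidableEq J]

/-- the edge density -/
noncomputable def dl (W : V → V → ℝ) : ℝ := 𝔼 y, dg W y

/-- weighted star densities -/
noncomputable def sb (W : V → V → ℝ) (β : ℝ) (R : Finset P) (U : Finset J) (x : P → V)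
    (v : J → V) : ℝ := 𝔼 y, dg W y ^ β * (pw W R x y * pw W U v y)

/-- the exponent of the star law -/
noncomputable def ex (R : Finset P) (U : Finset J) : ℝ := 1 - (R.card : ℝ) - (U.card : ℝ)

/-- the density of the star law -/
noncomputable def pp (W : V → V → ℝ) (ω : V × (P → V) × (J → V)) : ℝ :=
  dg W ω.1 ^ (ex (univ : Finset P) (univ : Finset J)) *
    (pw W univ ω.2.1 ω.1 * pw W univ ω.2.2 ω.1) / dl W

/-- expectation with respect to the star law -/
noncomputable def EE (W : V → V → ℝ) (φ : V × (P → V) × (J → V) → ℝ) : ℝ :=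
  𝔼 ω : V × (P → V) × (J → V), pp W ω * φ ω

section

variable {W : V → V → ℝ}

lemma dl_nonneg (hW : ∀ x y, 0 ≤ W x y) : 0 ≤ dl W :=
  Finset.expect_nonneg fun _ _ => dg_nonneg hW _

lemma pp_nonneg (hW : ∀ x y, 0 ≤ W x y) (ω : V × (P → V) × (J → V)) : 0 ≤ pp W ω := by
  unfold pp
  have := dl_nonneg hW
  have h1 := dg_nonneg hW ω.1
  have h2 := pw_nonneg hW univ ω.2.1 ω.1
  have h3 := pw_nonneg hW univ ω.2.2 ω.1
  positivity

lemma sb_nonneg (hW : ∀ x y, 0 ≤ W x y) (β : ℝ) (R : Finset P) (U : Finset J) (x : P → V)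
    (v : J → V) : 0 ≤ sb W β R U x v := by
  refine Finset.expect_nonneg fun y _ => ?_
  have h1 := dg_nonneg hW y
  have h2 := pw_nonneg hW R x y
  have h3 := pw_nonneg hW U v y
  positivity

lemma star_zero (hW : ∀ x y, 0 ≤ W x y) {y : V} (h : dg W y = 0) (R : Finset P) (U : Finset J)
    (x : P → V) (v : J → V) : dg W y ^ (ex R U) * (pw W R x y * pw W U v y) = 0 := by
  rcases R.eq_empty_or_nonempty with hR | hR
  · rcases U.eq_empty_or_nonempty with hU | hU
    · subst hR hU
      simp [ex, h]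
    · rw [pw_eq_zero_of_dg hW h hU]; simp
  · rw [pw_eq_zero_of_dg hW h hR]; simp

/-- the marginals of the star law -/
lemma EE_marg (hW : ∀ x y, 0 ≤ W x y) (R : Finset P) (U : Finset J)
    (φ : V × (P → V) × (J → V) → ℝ)
    (hφ : ∀ y x x' v v', (∀ a ∈ R, x a = x' a) → (∀ a ∈ U, v a = v' a) →
      φ (y, x, v) = φ (y, x', v')) :
    EE W φ = 𝔼 y, 𝔼 x, 𝔼 v, dg W y ^ (ex R U) * (pw W R x y * pw W U v y) * φ (y, x, v) / dl W := by
  unfold EE
  rw [expect_prod' (fun (y : V) (z : (P → V) × (J → V)) => pp W (y, z) * φ (y, z))]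
  refine Finset.expect_congr rfl fun y _ => ?_
  rw [expect_prod' (fun (x : P → V) (v : J → V) => pp W (y, x, v) * φ (y, x, v))]
  rcases (dg_nonneg hW y).eq_or_lt with h | h
  · have h1 : ∀ x : P → V, ∀ v : J → V, pp W (y, x, v) * φ (y, x, v) = 0 := by
      intro x v
      simp only [pp]
      rw [star_zero hW h.symm]
      simp
    have h2 : ∀ x : P → V, ∀ v : J → V,
        dg W y ^ (ex R U) * (pw W R x y * pw W U v y) * φ (y, x, v) / dl W = 0 := by
      intro x v
      rw [star_zero hW h.symm]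
      simp
    simp only [h1, h2]
  · have h1 : ∀ x : P → V, 𝔼 v : J → V, pp W (y, x, v) * φ (y, x, v) =
        dg W y ^ (ex (univ : Finset P) (univ : Finset J)) / dl W *
          dg W y ^ (Fintype.card J - U.card) *
          (pw W univ x y * 𝔼 v : J → V, pw W U v y * φ (y, x, v)) := by
      intro x
      have e1 := expect_pw W U (fun v => φ (y, x, v))
        (fun v v' hv => hφ y x x v v' (fun _ _ => rfl) hv) y
      have e2 : 𝔼 v : J → V, pp W (y, x, v) * φ (y, x, v) =
          dg W y ^ (ex (univ : Finset P) (univ : Finset J)) / dl W * pw W univ x y *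
            𝔼 v : J → V, pw W univ v y * φ (y, x, v) := by
        rw [Finset.mul_expect]
        refine Finset.expect_congr rfl fun v _ => ?_
        simp only [pp]
        ring
      rw [e2, e1]
      ring
    simp_rw [h1]
    rw [← Finset.mul_expect]
    rw [expect_pw W R (fun x => 𝔼 v : J → V, pw W U v y * φ (y, x, v)) (by
      intro x x' hx
      refine Finset.expect_congr rfl fun v _ => ?_
      rw [hφ y x x' v v hx (fun _ _ => rfl)]) y]
    have h3 : dg W y ^ (ex R U) = dg W y ^ (ex (univ : Finset P) (univ : Finset J)) *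
        (dg W y ^ (Fintype.card J - U.card) * dg W y ^ (Fintype.card P - R.card)) := by
      rw [← pow_add, ← Real.rpow_natCast, ← Real.rpow_add h]
      congr 1
      have c1 : R.card ≤ Fintype.card P := Finset.card_le_univ _
      have c2 : U.card ≤ Fintype.card J := Finset.card_le_univ _
      push_cast [Nat.cast_sub c1, Nat.cast_sub c2]
      simp only [ex, Finset.card_univ]
      ring
    have h4 : ∀ x : P → V, 𝔼 v : J → V,
        dg W y ^ (ex R U) * (pw W R x y * pw W U v y) * φ (y, x, v) / dl W =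
        dg W y ^ (ex R U) / dl W * (pw W R x y * 𝔼 v : J → V, pw W U v y * φ (y, x, v)) := by
      intro x
      rw [Finset.mul_expect, Finset.mul_expect]
      refine Finset.expect_congr rfl fun v _ => ?_
      ring
    simp_rw [h4]
    rw [← Finset.mul_expect, h3]
    ring

lemma EE_marg' (hW : ∀ x y, 0 ≤ W x y) (R : Finset P) (U : Finset J)
    (φ : (P → V) → (J → V) → ℝ)
    (hφ : ∀ x x' v v', (∀ a ∈ R, x a = x' a) → (∀ a ∈ U, v a = v' a) → φ x v = φ x' v') :
    EE W (fun ω => φ ω.2.1 ω.2.2) = 𝔼 x, 𝔼 v, sb W (ex R U) R U x v / dl W * φ x v := by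
  rw [EE_marg hW R U (fun ω => φ ω.2.1 ω.2.2) (fun _ x x' v v' h1 h2 => hφ x x' v v' h1 h2),
    expect_comm']
  refine Finset.expect_congr rfl fun x _ => ?_
  rw [expect_comm']
  refine Finset.expect_congr rfl fun v _ => ?_
  rw [sb, Finset.expect_div, Finset.expect_mul]
  refine Finset.expect_congr rfl fun y _ => ?_
  ring

lemma EE_add (φ ψ : V × (P → V) × (J → V) → ℝ) :
    EE W (fun ω => φ ω + ψ ω) = EE W φ + EE W ψ := by
  simp only [EE, mul_add, Finset.expect_add_distrib]

lemma EE_sub (φ ψ : V × (P → V) × (J → V) → ℝ) :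
    EE W (fun ω => φ ω - ψ ω) = EE W φ - EE W ψ := by
  simp only [EE, mul_sub, Finset.expect_sub_distrib]

lemma EE_mul (c : ℝ) (φ : V × (P → V) × (J → V) → ℝ) :
    EE W (fun ω => c * φ ω) = c * EE W φ := by
  unfold EE
  rw [Finset.mul_expect]
  refine Finset.expect_congr rfl fun ω _ => ?_
  ring

lemma EE_sum {B : Type} (s : Finset B) (φ : B → V × (P → V) × (J → V) → ℝ) :
    EE W (fun ω => ∑ b ∈ s, φ b ω) = ∑ b ∈ s, EE W (φ b) := by
  unfold EE
  simp only [Finset.mul_sum]
  rw [Finset.expect_sum_comm]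

lemma EE_one (hW : ∀ x y, 0 ≤ W x y) (hd : 0 < dl W) :
    EE W (fun _ : V × (P → V) × (J → V) => (1 : ℝ)) = 1 := by
  have h := EE_marg (P := P) (J := J) hW ∅ ∅ (fun _ => 1) (fun _ _ _ _ _ _ _ => rfl)
  rw [h]
  simp only [ex, pw, Finset.card_empty, Nat.cast_zero, sub_zero, Real.rpow_one,
    Finset.prod_empty, mul_one, Fintype.expect_const]
  rw [← Finset.expect_div]
  exact div_self hd.ne'

lemma EE_const (hW : ∀ x y, 0 ≤ W x y) (hd : 0 < dl W) (c : ℝ) :
    EE W (fun _ : V × (P → V) × (J → V) => c) = c := by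
  have := EE_mul (W := W) (P := P) (J := J) c (fun _ => 1)
  rw [EE_one hW hd, mul_one] at this
  exact this

/-- the form of Jensen's inequality that we use -/
lemma EE_log (hW : ∀ x y, 0 ≤ W x y) (hd : 0 < dl W) (Y : V × (P → V) × (J → V) → ℝ)
    (hY : ∀ ω, 0 < pp W ω → 0 < Y ω) (h1 : EE W Y ≤ 1) : EE W (fun ω => Real.log (Y ω)) ≤ 0 := by
  refine log_expect (pp W) Y (pp_nonneg hW) hY ?_
  have h2 := EE_one (P := P) (J := J) hW hd
  unfold EE at h1 h2
  simp only [mul_one] at h2
  rw [h2]
  exact h1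

lemma EE_congr {φ ψ : V × (P → V) × (J → V) → ℝ} (hW : ∀ x y, 0 ≤ W x y)
    (h : ∀ ω, 0 < pp W ω → φ ω = ψ ω) : EE W φ = EE W ψ := by
  unfold EE
  refine Finset.expect_congr rfl fun ω _ => ?_
  rcases (pp_nonneg hW ω).eq_or_lt with h0 | h0
  · rw [← h0]; simp
  · rw [h ω h0]

/-! ### Positivity on the support -/

lemma dg_pos_of_pp (hW : ∀ x y, 0 ≤ W x y) {ω : V × (P → V) × (J → V)} (h : 0 < pp W ω) :
    0 < dg W ω.1 := by
  rcases (dg_nonneg hW ω.1).eq_or_lt with h0 | h0
  · exfalso
    unfold pp at h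
    rw [star_zero hW h0.symm] at h
    simp at h
  · exact h0

lemma W_pos_left (hW : ∀ x y, 0 ≤ W x y) {ω : V × (P → V) × (J → V)} (h : 0 < pp W ω) (a : P) :
    0 < W (ω.2.1 a) ω.1 := by
  rcases (hW (ω.2.1 a) ω.1).eq_or_lt with h0 | h0
  · exfalso
    unfold pp at h
    have : pw W univ ω.2.1 ω.1 = 0 := Finset.prod_eq_zero (mem_univ a) h0.symm
    rw [this] at h
    simp at h
  · exact h0

lemma W_pos_right (hW : ∀ x y, 0 ≤ W x y) {ω : V × (P → V) × (J → V)} (h : 0 < pp W ω) (a : J) :
    0 < W (ω.2.2 a) ω.1 := by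
  rcases (hW (ω.2.2 a) ω.1).eq_or_lt with h0 | h0
  · exfalso
    unfold pp at h
    have : pw W univ ω.2.2 ω.1 = 0 := Finset.prod_eq_zero (mem_univ a) h0.symm
    rw [this] at h
    simp at h
  · exact h0

lemma sb_pos_of_pp (hW : ∀ x y, 0 ≤ W x y) {ω : V × (P → V) × (J → V)} (h : 0 < pp W ω)
    (β : ℝ) (R : Finset P) (U : Finset J) : 0 < sb W β R U ω.2.1 ω.2.2 := by
  refine Finset.expect_pos' (fun y _ => ?_) ⟨ω.1, mem_univ _, ?_⟩
  · have h1 := dg_nonneg hW y
    have h2 := pw_nonneg hW R ω.2.1 y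
    have h3 := pw_nonneg hW U ω.2.2 y
    positivity
  · have h1 := dg_pos_of_pp hW h
    have h2 : 0 < pw W R ω.2.1 ω.1 := Finset.prod_pos fun a _ => W_pos_left hW h a
    have h3 : 0 < pw W U ω.2.2 ω.1 := Finset.prod_pos fun a _ => W_pos_right hW h a
    positivity

/-! ### Entropies -/

/-- `E log ρ_{R,U}`: the relative entropy of the marginal of the star law -/
noncomputable def DD (W : V → V → ℝ) (R : Finset P) (U : Finset J) : ℝ :=
  EE W (fun ω => Real.log (sb W (ex R U) R U ω.2.1 ω.2.2 / dl W))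

/-- `E log d(y)` -/
noncomputable def LL (W : V → V → ℝ) (P J : Type) [Fintype P] [DecidableEq P] [Fintype J]
    [DecidableEq J] : ℝ :=
  EE W (fun ω : V × (P → V) × (J → V) => Real.log (dg W ω.1))

lemma sb_congr (β : ℝ) (R : Finset P) (U : Finset J) {x x' : P → V} {v v' : J → V}
    (hx : ∀ a ∈ R, x a = x' a) (hv : ∀ a ∈ U, v a = v' a) :
    sb W β R U x v = sb W β R U x' v' := by
  unfold sb
  refine Finset.expect_congr rfl fun y _ => ?_
  rw [pw_congr hx, pw_congr hv]

lemma sb_total (hW : ∀ x y, 0 ≤ W x y) (hd : 0 < dl W) (R : Finset P) (U : Finset J) :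
    𝔼 x : P → V, 𝔼 v : J → V, sb W (ex R U) R U x v / dl W = 1 := by
  have h := EE_marg' (P := P) (J := J) hW R U (fun _ _ => 1) (fun _ _ _ _ _ _ => rfl)
  rw [EE_one hW hd] at h
  rw [h]
  refine Finset.expect_congr rfl fun x _ => Finset.expect_congr rfl fun v _ => ?_
  rw [mul_one]

/-- lower bound for `E log s^β` -/
lemma EE_log_sb (hW : ∀ x y, 0 ≤ W x y) (hd : 0 < dl W) (β : ℝ) (R : Finset P) (U : Finset J) :
    Real.log (dl W) + DD W R U + (β - ex R U) * LL W P J ≤
      EE W (fun ω : V × (P → V) × (J → V) => Real.log (sb W β R U ω.2.1 ω.2.2)) := by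
  have key := EE_log (P := P) (J := J) hW hd
    (fun ω => sb W (ex R U) R U ω.2.1 ω.2.2 * dg W ω.1 ^ (β - ex R U) /
      sb W β R U ω.2.1 ω.2.2) (by
        intro ω h
        have h1 := sb_pos_of_pp hW h (ex R U) R U
        have h2 := sb_pos_of_pp hW h β R U
        have h3 := dg_pos_of_pp hW h
        positivity) (by
        rw [EE_marg hW R U _ (by
          intro y x x' v v' hx hv
          show sb W (ex R U) R U x v * dg W y ^ (β - ex R U) / sb W β R U x v =
            sb W (ex R U) R U x' v' * dg W y ^ (β - ex R U) / sb W β R U x' v'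
          rw [sb_congr (ex R U) R U hx hv, sb_congr β R U hx hv])]
        rw [← sb_total hW hd R U, expect_comm']
        refine Finset.expect_le_expect fun x _ => ?_
        rw [expect_comm']
        refine Finset.expect_le_expect fun v _ => ?_
        have h4 : ∀ y : V, dg W y ^ (ex R U) * (pw W R x y * pw W U v y) *
            (sb W (ex R U) R U x v * dg W y ^ (β - ex R U) / sb W β R U x v) / dl W ≤
            (sb W (ex R U) R U x v / (sb W β R U x v * dl W)) *
              (dg W y ^ β * (pw W R x y * pw W U v y)) := by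
          intro y
          rcases (dg_nonneg hW y).eq_or_lt with h | h
          · rw [star_zero hW h.symm]
            have h1 := sb_nonneg hW (ex R U) R U x v
            have h2 := sb_nonneg hW β R U x v
            have h3 := pw_nonneg hW R x y
            have h5 := pw_nonneg hW U v y
            have h6 := dg_nonneg hW y
            rw [zero_mul, zero_div]
            positivity
          · have e1 : dg W y ^ β = dg W y ^ (ex R U) * dg W y ^ (β - ex R U) := by
              rw [← Real.rpow_add h]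
              congr 1
              ring
            rw [e1]
            apply le_of_eq
            field_simp
        refine (Finset.expect_le_expect fun y _ => h4 y).trans ?_
        rw [← Finset.mul_expect]
        show sb W (ex R U) R U x v / (sb W β R U x v * dl W) * sb W β R U x v ≤ _
        rcases (sb_nonneg hW β R U x v).eq_or_lt with h | h
        · rw [← h, mul_zero]
          have h1 := sb_nonneg hW (ex R U) R U x v
          positivity
        · apply le_of_eq
          field_simp)
  have h5 : EE W (fun ω : V × (P → V) × (J → V) =>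
      Real.log (sb W (ex R U) R U ω.2.1 ω.2.2 * dg W ω.1 ^ (β - ex R U) /
      sb W β R U ω.2.1 ω.2.2)) = Real.log (dl W) + DD W R U + (β - ex R U) * LL W P J -
      EE W (fun ω : V × (P → V) × (J → V) => Real.log (sb W β R U ω.2.1 ω.2.2)) := by
    rw [DD, LL, ← EE_mul, ← EE_const (P := P) (J := J) hW hd (Real.log (dl W)), ← EE_add,
      ← EE_add, ← EE_sub]
    apply EE_congr hW
    intro ω h
    have h1 := sb_pos_of_pp hW h (ex R U) R U
    have h2 := sb_pos_of_pp hW h β R U
    have h3 := dg_pos_of_pp hW h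
    rw [Real.log_div (by positivity) h2.ne', Real.log_mul h1.ne' (by positivity),
      Real.log_rpow h3, Real.log_div h1.ne' hd.ne']
    ring
  rw [h5] at key
  linarith

/-- monotonicity of the entropies -/
lemma DD_mono (hW : ∀ x y, 0 ≤ W x y) (hd : 0 < dl W) {R R' : Finset P} {U U' : Finset J}
    (hR : R ⊆ R') (hU : U ⊆ U') : DD W R U ≤ DD W R' U' := by
  have key := EE_log (P := P) (J := J) hW hd
    (fun ω => (sb W (ex R U) R U ω.2.1 ω.2.2 / dl W) /
      (sb W (ex R' U') R' U' ω.2.1 ω.2.2 / dl W)) (by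
        intro ω h
        have h1 := sb_pos_of_pp hW h (ex R U) R U
        have h2 := sb_pos_of_pp hW h (ex R' U') R' U'
        positivity) (by
        rw [EE_marg' hW R' U' (fun x v => (sb W (ex R U) R U x v / dl W) /
          (sb W (ex R' U') R' U' x v / dl W)) (by
          intro x x' v v' hx hv
          rw [sb_congr (ex R' U') R' U' hx hv,
            sb_congr (ex R U) R U (fun a ha => hx a (hR ha)) (fun a ha => hv a (hU ha))])]
        rw [← sb_total hW hd R U]
        refine Finset.expect_le_expect fun x _ => Finset.expect_le_expect fun v _ => ?_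
        rcases (sb_nonneg hW (ex R' U') R' U' x v).eq_or_lt with h | h
        · rw [← h, zero_div, zero_mul]
          have h1 := sb_nonneg hW (ex R U) R U x v
          positivity
        · apply le_of_eq
          field_simp)
  have h5 : EE W (fun ω : V × (P → V) × (J → V) =>
      Real.log ((sb W (ex R U) R U ω.2.1 ω.2.2 / dl W) /
      (sb W (ex R' U') R' U' ω.2.1 ω.2.2 / dl W))) = DD W R U - DD W R' U' := by
    rw [DD, DD, ← EE_sub]
    apply EE_congr hW
    intro ω h
    have h1 := sb_pos_of_pp hW h (ex R U) R U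
    have h2 := sb_pos_of_pp hW h (ex R' U') R' U'
    rw [Real.log_div (by positivity) (by positivity)]
  rw [h5] at key
  linarith

lemma DD_empty (hW : ∀ x y, 0 ≤ W x y) (hd : 0 < dl W) :
    DD W (∅ : Finset P) (∅ : Finset J) = 0 := by
  have h1 : ∀ ω : V × (P → V) × (J → V),
      Real.log (sb W (ex (∅ : Finset P) (∅ : Finset J)) ∅ ∅ ω.2.1 ω.2.2 / dl W) = 0 := by
    intro ω
    have : sb W (ex (∅ : Finset P) (∅ : Finset J)) ∅ ∅ ω.2.1 ω.2.2 = dl W := by
      simp [sb, ex, pw, dl]
    rw [this, div_self hd.ne', Real.log_one]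
  unfold DD EE
  simp [h1]

lemma DD_nonneg (hW : ∀ x y, 0 ≤ W x y) (hd : 0 < dl W) (R : Finset P) (U : Finset J) :
    0 ≤ DD W R U := by
  rw [← DD_empty (P := P) (J := J) hW hd]
  exact DD_mono hW hd (Finset.empty_subset _) (Finset.empty_subset _)

lemma LL_ge (hW : ∀ x y, 0 ≤ W x y) (hd : 0 < dl W) : Real.log (dl W) ≤ LL W P J := by
  have key := EE_log (P := P) (J := J) hW hd (fun ω => dl W / dg W ω.1) (by
    intro ω h
    have h3 := dg_pos_of_pp hW h
    positivity) (by
    rw [EE_marg hW ∅ ∅ (fun ω => dl W / dg W ω.1) (fun _ _ _ _ _ _ _ => rfl)]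
    have h4 : ∀ y : V, 𝔼 x : P → V, 𝔼 v : J → V,
        dg W y ^ (ex (∅ : Finset P) (∅ : Finset J)) * (pw W ∅ x y * pw W ∅ v y) *
          (dl W / dg W (y, x, v).1) / dl W ≤ 1 := by
      intro y
      simp only [ex, pw, Finset.card_empty, Nat.cast_zero, sub_zero, Real.rpow_one,
        Finset.prod_empty, mul_one, Fintype.expect_const]
      rcases (dg_nonneg hW y).eq_or_lt with h | h
      · rw [← h]; simp
      · apply le_of_eq
        field_simp
    exact Finset.expect_le univ_nonempty fun y _ => h4 y)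
  have h5 : EE W (fun ω : V × (P → V) × (J → V) => Real.log (dl W / dg W ω.1)) =
      Real.log (dl W) - LL W P J := by
    rw [LL, ← EE_const (P := P) (J := J) hW hd (Real.log (dl W)), ← EE_sub]
    apply EE_congr hW
    intro ω h
    rw [Real.log_div hd.ne' (dg_pos_of_pp hW h).ne']
  rw [h5] at key
  linarith

end

end Pool.Agent.Lib.MP_426a66_co.H68
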