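import Pool.Agent.Lib.MP_426a66_co.H68.Sid

/-!
# Two nearly complete vertices
-/

set_option linter.all false
set_option autoImplicit false

namespace Pool.Agent.Lib.MP_426a66_co.H68

open Finset
open Classical

section

variable {A B : Type} [Fintype A] [Fintype B] (E : A → B → Prop)

theorem sidorenko_of_edgeless (h : ∀ a b, ¬ E a b) : Sidorenko E := by
  intro X Y _ _ R
  have he : edges E = 0 := by
    unfold edges
    rw [Nat.card_eq_zero]
    left
    exact ⟨fun p => h _ _ p.2⟩
  rw [he, pow_zero, pow_zero, mul_one, mul_one, homs_empty E R h]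

theorem folded_of_complete (b : B) (hb : ∀ a, E a b) : IsFolded E := by
  refine ⟨1, 0, fun _ t => t.elim0, Nat.one_pos, fun i t => t.elim0, fun b' => Or.inl ⟨0, ?_⟩, ?_⟩
  · intro i' _ t
    exact t.elim0
  · have h1 : FullBranch E (fun (_ : Fin 1) (t : Fin 0) => (t.elim0 : A)) b :=
      ⟨0, fun a => ⟨fun _ _ _ t => t.elim0, fun _ => hb a⟩⟩
    haveI : Nonempty {b : B // FullBranch E (fun (_ : Fin 1) (t : Fin 0) => (t.elim0 : A)) b} :=
      ⟨⟨b, h1⟩⟩
    exact Nat.one_le_iff_ne_zero.2 Nat.card_pos.ne'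

theorem folded_of_two (a₀ a₁ : A) (hne : a₀ ≠ a₁) (b b' : B) (hbb : b ≠ b')
    (hb : ∀ a, E a b ↔ a ≠ a₀) (hb' : (∀ a, E a b' ↔ a ≠ a₀) ∨ ∀ a, E a b' ↔ a ≠ a₁) :
    IsFolded E := by
  set blk : Fin 2 → Fin 1 → A := fun i _ => if i = 0 then a₀ else a₁ with hblk
  have h0 : ∀ t, blk 0 t = a₀ := fun t => if_pos rfl
  have h1 : ∀ t, blk 1 t = a₁ := fun t => if_neg (by decide)
  have full1 : ∀ c, (∀ a, E a c ↔ a ≠ a₀) → FullBranch E blk c := by
    intro c hc
    refine ⟨1, fun a => (hc a).trans ⟨fun h i' hi' t => ?_, fun h => ?_⟩⟩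
    · have : i' = 0 := by omega
      rw [this, h0 t]
      exact h
    · have := h 0 (by decide) 0
      rwa [h0 0] at this
  have full0 : ∀ c, (∀ a, E a c ↔ a ≠ a₁) → FullBranch E blk c := by
    intro c hc
    refine ⟨0, fun a => (hc a).trans ⟨fun h i' hi' t => ?_, fun h => ?_⟩⟩
    · have : i' = 1 := by omega
      rw [this, h1 t]
      exact h
    · have := h 1 (by decide) 0
      rwa [h1 0] at this
  refine ⟨2, 1, blk, by norm_num, ?_, ?_, ?_⟩
  · intro i t i' t' h
    refine ⟨?_, Subsingleton.elim _ _⟩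
    fin_cases i <;> fin_cases i' <;> simp only [hblk] at h ⊢
    · exact absurd h hne
    · exact absurd h.symm hne
  · intro c
    by_cases c0 : E a₀ c
    · by_cases c1 : E a₁ c
      · right
        intro i i' t
        have : ∀ i, E (blk i t) c := by
          intro i
          rcases (show i = 0 ∨ i = 1 by omega) with hi | hi
          · rw [hi, h0 t]; exact c0
          · rw [hi, h1 t]; exact c1
        exact ⟨fun _ => this i', fun _ => this i⟩
      · left
        refine ⟨0, fun i' hi' t => ?_⟩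
        have : i' = 1 := by omega
        rw [this, h1 t]
        exact c1
    · left
      refine ⟨1, fun i' hi' t => ?_⟩
      have : i' = 0 := by omega
      rw [this, h0 t]
      exact c0
  · have hf' : FullBranch E blk b' := hb'.elim (full1 b') (full0 b')
    have hf : FullBranch E blk b := full1 b hb
    haveI : Nontrivial {b : B // FullBranch E blk b} :=
      ⟨⟨⟨b, hf⟩, ⟨b', hf'⟩, fun h => hbb (congrArg Subtype.val h)⟩⟩
    exact Finite.one_lt_card

/-- two nearly complete vertices imply Sidorenko's property -/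
theorem sidorenko_of_two (h : TwoNearlyComplete E) : Sidorenko E := by
  obtain ⟨b, b', hbb, hb, hb'⟩ := h
  by_cases h0 : ∃ c, ∀ a, E a c
  · obtain ⟨c, hc⟩ := h0
    exact sidorenko_of_folded E (folded_of_complete E c hc)
  push Not at h0
  have key : ∀ c, Nat.card {a : A // ¬ E a c} ≤ 1 → ∃ a₀, ∀ a, E a c ↔ a ≠ a₀ := by
    intro c hc
    obtain ⟨a₀, ha₀⟩ := h0 c
    refine ⟨a₀, fun a => ⟨?_, ?_⟩⟩
    · rintro h rfl
      exact ha₀ h
    · intro h
      by_contra h1
      haveI : Nontrivial {a : A // ¬ E a c} :=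
        ⟨⟨⟨a, h1⟩, ⟨a₀, ha₀⟩, fun h2 => h (congrArg Subtype.val h2)⟩⟩
      have := Finite.one_lt_card (α := {a : A // ¬ E a c})
      omega
  obtain ⟨a₀, h1⟩ := key b hb
  obtain ⟨a₁, h2⟩ := key b' hb'
  by_cases h3 : a₀ = a₁
  · subst h3
    by_cases h4 : ∃ a₂, a₂ ≠ a₀
    · obtain ⟨a₂, h4⟩ := h4
      exact sidorenko_of_folded E (folded_of_two E a₀ a₂ h4.symm b b' hbb h1 (Or.inl h2))
    · push Not at h4
      refine sidorenko_of_edgeless E fun a c hac => ?_
      obtain ⟨a', ha'⟩ := h0 c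
      rw [h4 a', ← h4 a] at ha'
      exact ha' hac
  · exact sidorenko_of_folded E (folded_of_two E a₀ a₁ h3 b b' hbb h1 (Or.inr h2))

end

end Pool.Agent.Lib.MP_426a66_co.H68
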